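import Mathlib

/-!
# Mixed page number: basic notions (after helper973)

Edges are pairs of natural numbers.  `Cr e f` : the edges cross, `e` starting first.
`Ns e f` : the edge `f` is nested inside `e`.
-/

set_option autoImplicit false

namespace Pool.Agent.KS6_63.MX

abbrev Ed := ℕ × ℕ

/-- `e` and `f` cross, and `e` starts first -/
def Cr (e f : Ed) : Prop := e.1 < f.1 ∧ f.1 < e.2 ∧ e.2 < f.2

/-- `f` is nested inside `e` -/
def Ns (e f : Ed) : Prop := e.1 < f.1 ∧ f.2 < e.2

/-- `S` can be covered by `N` stacks and `N` queues -/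
def SQ (S : Finset Ed) (N : ℕ) : Prop :=
  ∃ (t : Ed → Bool) (c : Ed → ℕ), (∀ e ∈ S, c e < N) ∧
    (∀ e ∈ S, ∀ f ∈ S, c e = c f → t e = true → t f = true → ¬ Cr e f) ∧
    (∀ e ∈ S, ∀ f ∈ S, c e = c f → t e = false → t f = false → ¬ Ns e f)

lemma SQ.mono {S T : Finset Ed} {N M : ℕ} (h : SQ S N) (hTS : T ⊆ S) (hNM : N ≤ M) :
    SQ T M := by
  obtain ⟨t, c, h1, h2, h3⟩ := h
  exact ⟨t, c, fun e he => lt_of_lt_of_le (h1 e (hTS he)) hNM,
    fun e he f hf => h2 e (hTS he) f (hTS hf), fun e he f hf => h3 e (hTS he) f (hTS hf)⟩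

lemma SQ.add {S T U : Finset Ed} {N M : ℕ} (h : SQ S N) (h' : SQ T M) (hU : ∀ e ∈ U, e ∈ S ∨ e ∈ T) :
    SQ U (N + M) := by
  classical
  obtain ⟨t, c, h1, h2, h3⟩ := h
  obtain ⟨t', c', h1', h2', h3'⟩ := h'
  have key : ∀ e ∈ U, e ∉ S → e ∈ T := fun e he hS => (hU e he).resolve_left hS
  refine ⟨fun e => if e ∈ S then t e else t' e, fun e => if e ∈ S then c e else N + c' e, ?_, ?_, ?_⟩
  · intro e he
    by_cases hS : e ∈ S
    · simp only [hS, if_true]; have := h1 e hS; omega
    · simp only [hS, if_false]; have := h1' e (key e he hS); omega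
  · intro e he f hf hc ht ht'
    by_cases hS : e ∈ S <;> by_cases hF : f ∈ S
    · simp only [hS, hF, if_true] at hc ht ht'
      exact h2 e hS f hF hc ht ht'
    · simp only [hS, hF, if_true, if_false] at hc
      have := h1 e hS; omega
    · simp only [hS, hF, if_true, if_false] at hc
      have := h1 f hF; omega
    · simp only [hS, hF, if_false] at hc ht ht'
      exact h2' e (key e he hS) f (key f hf hF) (by omega) ht ht'
  · intro e he f hf hc ht ht'
    by_cases hS : e ∈ S <;> by_cases hF : f ∈ S
    · simp only [hS, hF, if_true] at hc ht ht'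
      exact h3 e hS f hF hc ht ht'
    · simp only [hS, hF, if_true, if_false] at hc
      have := h1 e hS; omega
    · simp only [hS, hF, if_true, if_false] at hc
      have := h1 f hF; omega
    · simp only [hS, hF, if_false] at hc ht ht'
      exact h3' e (key e he hS) f (key f hf hF) (by omega) ht ht'

lemma SQ.of_empty (N : ℕ) : SQ ∅ N :=
  ⟨fun _ => true, fun _ => 0, by simp, by simp, by simp⟩

/-- a stack coloured set -/
lemma SQ.of_cr {S : Finset Ed} {N : ℕ} (c : Ed → ℕ) (h : ∀ e ∈ S, c e < N)
    (h2 : ∀ e ∈ S, ∀ f ∈ S, Cr e f → c e ≠ c f) : SQ S N :=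
  ⟨fun _ => true, c, h, fun e he f hf hc _ _ hcr => h2 e he f hf hcr hc,
    fun e he f hf _ ht => by simp at ht⟩

lemma SQ.of_ns {S : Finset Ed} {N : ℕ} (c : Ed → ℕ) (h : ∀ e ∈ S, c e < N)
    (h2 : ∀ e ∈ S, ∀ f ∈ S, Ns e f → c e ≠ c f) : SQ S N :=
  ⟨fun _ => false, c, h, fun e he f hf _ ht => by simp at ht,
    fun e he f hf hc _ _ hcr => h2 e he f hf hcr hc⟩

/-- blocks which neither cross nor nest can share pages -/
lemma SQ.blocks {S : Finset Ed} {N : ℕ} (g : Ed → ℕ)
    (hg : ∀ e ∈ S, ∀ f ∈ S, g e ≠ g f → ¬ Cr e f ∧ ¬ Ns e f)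
    (h : ∀ i, SQ (S.filter (fun e => g e = i)) N) : SQ S N := by
  classical
  choose t c h1 h2 h3 using h
  refine ⟨fun e => t (g e) e, fun e => c (g e) e, ?_, ?_, ?_⟩
  · intro e he
    exact h1 (g e) e (by simp [he])
  · intro e he f hf hc ht ht'
    by_cases hgf : g e = g f
    · have hf' : f ∈ S.filter (fun e' => g e' = g e) := by simp [hf, hgf]
      have he' : e ∈ S.filter (fun e' => g e' = g e) := by simp [he]
      beta_reduce at hc ht ht'
      rw [← hgf] at hc ht'
      exact h2 (g e) e he' f hf' hc ht ht'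
    · exact (hg e he f hf hgf).1
  · intro e he f hf hc ht ht'
    by_cases hgf : g e = g f
    · have hf' : f ∈ S.filter (fun e' => g e' = g e) := by simp [hf, hgf]
      have he' : e ∈ S.filter (fun e' => g e' = g e) := by simp [he]
      beta_reduce at hc ht ht'
      rw [← hgf] at hc ht'
      exact h3 (g e) e he' f hf' hc ht ht'
    · exact (hg e he f hf hgf).2

/-- `X` contains a chain of length `k` for the relation `r` -/
def Ch (r : Ed → Ed → Prop) (X : Finset Ed) (k : ℕ) : Prop :=
  ∃ f : ℕ → Ed, (∀ i, i < k → f i ∈ X) ∧ ∀ i j, i < j → j < k → r (f i) (f j)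

lemma Ch.mono {r : Ed → Ed → Prop} {X Y : Finset Ed} {k l : ℕ} (h : Ch r X k) (hXY : X ⊆ Y)
    (hlk : l ≤ k) : Ch r Y l := by
  obtain ⟨f, h1, h2⟩ := h
  exact ⟨f, fun i hi => hXY (h1 i (by omega)), fun i j hij hj => h2 i j hij (by omega)⟩

/-- Mirsky's theorem -/
lemma mirsky (r : Ed → Ed → Prop) (htr : ∀ a b c, r a b → r b c → r a c) : ∀ (k : ℕ) (X : Finset Ed), Ch r X (k + 1) ∨
      ∃ c : Ed → ℕ, (∀ e ∈ X, c e < k) ∧ ∀ e ∈ X, ∀ f ∈ X, r e f → c e ≠ c f := by
  classical
  intro k
  induction k with
  | zero =>
      intro X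
      rcases X.eq_empty_or_nonempty with rfl | ⟨x, hx⟩
      · right; exact ⟨fun _ => 0, by simp, by simp⟩
      · left; exact ⟨fun _ => x, fun i _ => hx, fun i j hij hj => by omega⟩
  | succ k ih =>
      intro X
      set X' := X.filter (fun e => ∃ e' ∈ X, r e' e) with hX'
      rcases ih X' with h | h
      · obtain ⟨f, h1, h2⟩ := h
        have h0 := h1 0 (by omega)
        rw [hX', Finset.mem_filter] at h0
        obtain ⟨_, e', he', hr⟩ := h0
        left
        refine ⟨fun i => if i = 0 then e' else f (i - 1), ?_, ?_⟩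
        · intro i hi
          by_cases hi0 : i = 0
          · simp [hi0, he']
          · simp only [hi0, if_false]
            exact (Finset.mem_filter.1 (h1 (i - 1) (by omega))).1
        · intro i j hij hj
          have hj0 : j ≠ 0 := by omega
          simp only [hj0, if_false]
          by_cases hi0 : i = 0
          · simp only [hi0, if_true]
            by_cases hj1 : j - 1 = 0
            · rw [hj1]; exact hr
            · exact htr _ _ _ hr (h2 0 (j - 1) (by omega) (by omega))
          · simp only [hi0, if_false]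
            exact h2 (i - 1) (j - 1) (by omega) (by omega)
      · obtain ⟨c, h1, h2⟩ := h
        right
        refine ⟨fun e => if e ∈ X' then c e else k, ?_, ?_⟩
        · intro e he
          by_cases h : e ∈ X'
          · simp only [h, if_true]; have := h1 e h; omega
          · simp only [h, if_false]; omega
        · intro e he f hf hr
          have hf' : f ∈ X' := by
            rw [hX', Finset.mem_filter]; exact ⟨hf, e, he, hr⟩
          by_cases h : e ∈ X'
          · simp only [h, hf', if_true]; exact h2 e h f hf' hr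
          · simp only [h, hf', if_true, if_false]; have := h1 f hf'; omega

/-- Mirsky's theorem with a strictly monotone height function -/
lemma mirsky_mono (r : Ed → Ed → Prop) (htr : ∀ a b c, r a b → r b c → r a c) :
    ∀ (k : ℕ) (X : Finset Ed), Ch r X (k + 1) ∨
      ∃ c : Ed → ℕ, (∀ e ∈ X, c e < k) ∧ ∀ e ∈ X, ∀ f ∈ X, r e f → c f < c e := by
  classical
  intro k
  induction k with
  | zero =>
      intro X
      rcases X.eq_empty_or_nonempty with rfl | ⟨x, hx⟩
      · right; exact ⟨fun _ => 0, by simp, by simp⟩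
      · left; exact ⟨fun _ => x, fun i _ => hx, fun i j hij hj => by omega⟩
  | succ k ih =>
      intro X
      set X' := X.filter (fun e => ∃ e' ∈ X, r e' e) with hX'
      rcases ih X' with h | h
      · obtain ⟨f, h1, h2⟩ := h
        have h0 := h1 0 (by omega)
        rw [hX', Finset.mem_filter] at h0
        obtain ⟨_, e', he', hr⟩ := h0
        left
        refine ⟨fun i => if i = 0 then e' else f (i - 1), ?_, ?_⟩
        · intro i hi
          by_cases hi0 : i = 0
          · simp [hi0, he']
          · simp only [hi0, if_false]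
            exact (Finset.mem_filter.1 (h1 (i - 1) (by omega))).1
        · intro i j hij hj
          have hj0 : j ≠ 0 := by omega
          simp only [hj0, if_false]
          by_cases hi0 : i = 0
          · simp only [hi0, if_true]
            by_cases hj1 : j - 1 = 0
            · rw [hj1]; exact hr
            · exact htr _ _ _ hr (h2 0 (j - 1) (by omega) (by omega))
          · simp only [hi0, if_false]
            exact h2 (i - 1) (j - 1) (by omega) (by omega)
      · obtain ⟨c, h1, h2⟩ := h
        right
        refine ⟨fun e => if e ∈ X' then c e else k, ?_, ?_⟩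
        · intro e he
          by_cases h : e ∈ X'
          · simp only [h, if_true]; have := h1 e h; omega
          · simp only [h, if_false]; omega
        · intro e he f hf hr
          have hf' : f ∈ X' := by
            rw [hX', Finset.mem_filter]; exact ⟨hf, e, he, hr⟩
          by_cases h : e ∈ X'
          · simp only [h, hf', if_true]; exact h2 e h f hf' hr
          · simp only [h, hf', if_true, if_false]; have := h1 f hf'; omega

end Pool.Agent.KS6_63.MX
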