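import Mathlib
import Pool.Agent.KS6_63.MX.Base

/-!
# Circle graphs: the potential argument (helper63)

Families of chords with pairwise distinct endpoints.
-/

set_option autoImplicit false

namespace Pool.Agent.KS6_63.MX

/-- distinct endpoints -/
def Di (F : Finset Ed) : Prop :=
  ∀ e ∈ F, ∀ f ∈ F, (e.1 = f.1 → e = f) ∧ (e.2 = f.2 → e = f) ∧ e.1 ≠ f.2

def Wf (F : Finset Ed) : Prop := ∀ e ∈ F, e.1 < e.2

lemma Di.mono {F K : Finset Ed} (h : Di F) (hK : K ⊆ F) : Di K :=
  fun e he f hf => h e (hK he) f (hK hf)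

lemma Wf.mono {F K : Finset Ed} (h : Wf F) (hK : K ⊆ F) : Wf K :=
  fun e he => h e (hK he)

/-- the crossing graph of `F` is `N`-colourable -/
def Cl (F : Finset Ed) (N : ℕ) : Prop :=
  ∃ c : Ed → ℕ, (∀ e ∈ F, c e < N) ∧ ∀ e ∈ F, ∀ f ∈ F, Cr e f → c e ≠ c f

lemma Cl.mono {F K : Finset Ed} {N M : ℕ} (h : Cl F N) (hK : K ⊆ F) (hNM : N ≤ M) : Cl K M := by
  obtain ⟨c, h1, h2⟩ := h
  exact ⟨c, fun e he => lt_of_lt_of_le (h1 e (hK he)) hNM, fun e he f hf => h2 e (hK he) f (hK hf)⟩

/-- greedy cutting of a segment into pieces -/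
lemma cuts (c B : ℕ) (hB : 1 ≤ B) (sees : ℕ → ℕ → ℕ) (Φ : ℕ → ℕ)
    (h0 : ∀ u, sees u u = 0)
    (h2 : ∀ u u' v v', u' ≤ u → v ≤ v' → sees u v ≤ sees u' v')
    (h3 : ∀ u v, sees u (v + 1) ≤ sees u v + 1) :
    ∀ n a, c - a ≤ n → a ≤ c →
    (∀ u v, a ≤ u → u ≤ v → v ≤ c → B ≤ sees u v → Φ u < Φ v) →
    (∀ u v, a ≤ u → u ≤ v → v ≤ c → Φ u ≤ Φ v) →
    ∃ Z : Finset ℕ, Z.card + Φ a ≤ Φ c ∧ (∀ z ∈ Z, a < z ∧ z < c) ∧
      ∀ u v, a ≤ u → u ≤ v → v ≤ c → (∀ z ∈ Z, ¬ (u < z ∧ z < v)) → sees u v ≤ B := by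
  classical
  intro n
  induction n with
  | zero =>
      intro a hn hac h1 h4
      refine ⟨∅, by simpa using h4 a c le_rfl hac le_rfl, by simp, ?_⟩
      intro u v hu huv hv _
      have : u = v := by omega
      rw [this, h0]; omega
  | succ n ih =>
      intro a hn hac h1 h4
      by_cases hs : sees a c ≤ B
      · refine ⟨∅, by simpa using h4 a c le_rfl hac le_rfl, by simp, ?_⟩
        intro u v hu huv hv _
        exact (h2 u a v c hu hv).trans hs
      · push Not at hs
        have hex : ∃ w, B ≤ sees a w := ⟨c, hs.le⟩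
        set w := Nat.find hex with hw
        have hw1 : B ≤ sees a w := Nat.find_spec hex
        have hwa : a < w := by
          by_contra hcon
          have := h2 a a w a le_rfl (by omega)
          rw [h0] at this
          omega
        have hw2 : sees a w ≤ B := by
          have h5 := Nat.find_min hex (m := w - 1) (by omega)
          have h6 := h3 a (w - 1)
          rw [show w - 1 + 1 = w by omega] at h6
          omega
        have hwc : w < c := by
          by_contra hcon
          have := h2 a a c w le_rfl (by omega)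
          omega
        have hΦ := h1 a w le_rfl hwa.le hwc.le hw1
        obtain ⟨Z, hZ1, hZ2, hZ3⟩ := ih w (by omega) hwc.le
          (fun u v hu huv hv => h1 u v (by omega) huv hv)
          (fun u v hu huv hv => h4 u v (by omega) huv hv)
        refine ⟨insert w Z, ?_, ?_, ?_⟩
        · have := Finset.card_insert_le w Z
          omega
        · intro z hz
          rcases Finset.mem_insert.1 hz with h | h
          · rw [h]; exact ⟨hwa, hwc⟩
          · have := hZ2 z h; omega
        · intro u v hu huv hv hno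
          rcases Nat.lt_or_ge u w with h5 | h5
          · have h6 : v ≤ w := by
              by_contra hcon
              exact hno w (Finset.mem_insert_self _ _) ⟨h5, by omega⟩
            exact (h2 u a v w hu h6).trans hw2
          · exact hZ3 u v h5 huv hv (fun z hz => hno z (Finset.mem_insert_of_mem hz))

/-- number of colours of a set of chords -/
noncomputable def nc (γ : Ed → ℕ) (X : Finset Ed) : ℕ := (X.image γ).card

lemma nc_mono {γ : Ed → ℕ} {X Y : Finset Ed} (h : X ⊆ Y) : nc γ X ≤ nc γ Y :=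
  Finset.card_le_card (Finset.image_subset_image h)

/-- abstract potential lemma: `X` is a set of chords with heights `1, …, b`; `pos` is the position
of the relevant endpoint.  Whenever two different colours occur, the chords of one of them seen in
the piece `[u, v)` exceed in height a chord of the other colour seen before `u` -/
lemma potential (X : Finset Ed) (γ pos h : Ed → ℕ) (b : ℕ) (hb : ∀ e ∈ X, h e < b)
    (key : ∀ e ∈ X, ∀ e' ∈ X, γ e ≠ γ e' →
      (∀ f' ∈ X, γ f' = γ e' → pos e < pos f' → h e < h f') ∨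
      (∀ f ∈ X, γ f = γ e → pos e' < pos f → h e' < h f)) :
    ∃ Φ : ℕ → ℕ, (∀ v, Φ v ≤ b * nc γ X) ∧ (∀ u v, u ≤ v → Φ u ≤ Φ v) ∧
      ∀ u v, u ≤ v → b + 1 ≤ nc γ (X.filter (fun e => u ≤ pos e ∧ pos e < v)) → Φ u < Φ v := by
  classical
  set g : ℕ → ℕ → ℕ := fun col v => (X.filter (fun e => γ e = col ∧ pos e < v)).sup (fun e => h e + 1)
    with hg
  have hgb : ∀ col v, g col v ≤ b := by
    intro col v
    refine Finset.sup_le ?_
    intro e he
    have := hb e (Finset.mem_filter.1 he).1
    omega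
  have hgm : ∀ col u v, u ≤ v → g col u ≤ g col v := by
    intro col u v huv
    refine Finset.sup_mono ?_
    intro e he
    rw [Finset.mem_filter] at he ⊢
    exact ⟨he.1, he.2.1, by omega⟩
  have hgle : ∀ e ∈ X, ∀ v, pos e < v → h e + 1 ≤ g (γ e) v := by
    intro e he v hv
    exact Finset.le_sup (f := fun e => h e + 1) (Finset.mem_filter.2 ⟨he, rfl, hv⟩)
  have hgat : ∀ col v, 1 ≤ g col v → ∃ e ∈ X, γ e = col ∧ pos e < v ∧ h e + 1 = g col v := by
    intro col v h1
    have hne : (X.filter (fun e => γ e = col ∧ pos e < v)).Nonempty := by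
      by_contra hcon
      rw [Finset.not_nonempty_iff_eq_empty] at hcon
      simp only [hg, hcon] at h1
      simp at h1
    obtain ⟨e, he, heq⟩ := Finset.exists_mem_eq_sup _ hne (fun e => h e + 1)
    rw [Finset.mem_filter] at he
    exact ⟨e, he.1, he.2.1, he.2.2, heq.symm⟩
  refine ⟨fun v => ∑ col ∈ X.image γ, g col v, ?_, ?_, ?_⟩
  · intro v
    refine (Finset.sum_le_card_nsmul _ _ b (fun col _ => hgb col v)).trans ?_
    rw [smul_eq_mul, mul_comm]
    exact le_rfl
  · intro u v huv
    exact Finset.sum_le_sum (fun col _ => hgm col u v huv)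
  · intro u v huv hcard
    by_contra hcon
    push Not at hcon
    have hle : ∀ col ∈ X.image γ, g col u ≤ g col v := fun col _ => hgm col u v huv
    have heq := (Finset.sum_eq_sum_iff_of_le hle).1 (le_antisymm (Finset.sum_le_sum hle) hcon)
    set A := (X.filter (fun e => u ≤ pos e ∧ pos e < v)).image γ with hA
    have hAX : ∀ col ∈ A, col ∈ X.image γ := by
      intro col hcol
      obtain ⟨e, he, rfl⟩ := Finset.mem_image.1 hcol
      exact Finset.mem_image_of_mem _ (Finset.mem_filter.1 he).1
    have hrep : ∀ col ∈ A, ∃ f ∈ X, γ f = col ∧ u ≤ pos f ∧ pos f < v := by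
      intro col hcol
      obtain ⟨e, he, rfl⟩ := Finset.mem_image.1 hcol
      rw [Finset.mem_filter] at he
      exact ⟨e, he.1, rfl, he.2.1, he.2.2⟩
    have hpos : ∀ col ∈ A, 1 ≤ g col v := by
      intro col hcol
      obtain ⟨f, hf, rfl, _, h2⟩ := hrep col hcol
      have := hgle f hf v h2
      omega
    obtain ⟨x, hx, y, hy, hne, hxy⟩ := Finset.exists_ne_map_eq_of_card_lt_of_maps_to
      (s := A) (t := Finset.Icc 1 b) (f := fun col => g col v)
      (by rw [Nat.card_Icc]; have : A.card = nc γ (X.filter (fun e => u ≤ pos e ∧ pos e < v)) := rfl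
          omega)
      (by
        intro col hcol
        have h1 := hpos col (by simpa using hcol)
        have h2 := hgb col v
        simp only [Finset.coe_Icc, Set.mem_Icc]
        exact ⟨h1, h2⟩)
    have main : ∀ x ∈ A, ∀ y ∈ A, x ≠ y → g x v = g y v → (∀ e ∈ X, ∀ e' ∈ X, γ e = x → γ e' = y →
        pos e < u → h e + 1 = g x v → 
        (∀ f' ∈ X, γ f' = γ e' → pos e < pos f' → h e < h f') → False) := by
      intro x hx y hy hne hxy e he e' he' hγ hγ' hpe hhe hk
      obtain ⟨f', hf', hf'1, hf'2, hf'3⟩ := hrep y hy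
      have h5 := hk f' hf' (hf'1.trans hγ'.symm) (by omega)
      have h6 := hgle f' hf' v hf'3
      rw [hf'1] at h6
      omega
    have hgx : 1 ≤ g x u := by rw [heq x (hAX x hx)]; exact hpos x hx
    have hgy : 1 ≤ g y u := by rw [heq y (hAX y hy)]; exact hpos y hy
    obtain ⟨e, he, he1, he2, he3⟩ := hgat x u hgx
    obtain ⟨e', he', he'1, he'2, he'3⟩ := hgat y u hgy
    have hxy' : g x v = g y v := hxy
    have hk := key e he e' he' (by rw [he1, he'1]; exact hne)
    rcases hk with hk | hk
    · exact main x hx y hy hne hxy' e he e' he' he1 he'1 he2 (by rw [he3]; exact heq x (hAX x hx)) hk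
    · exact main y hy x hx hne.symm hxy'.symm e' he' e he he'1 he1 he'2
        (by rw [he'3]; exact heq y (hAX y hy)) hk

end Pool.Agent.KS6_63.MX
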