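import Mathlib
import Pool.Agent.KS6_63.MX.Cuts

/-!
# Circle graphs: pillars (helper63)

A polynomial colouring bound for families of chords without large twists.
-/

set_option autoImplicit false

namespace Pool.Agent.KS6_63.MX

/-- strictly increasing pair -/
def Ic (e f : Ed) : Prop := e.1 < f.1 ∧ e.2 < f.2

lemma Ic_trans (a b c : Ed) (h : Ic a b) (h' : Ic b c) : Ic a c :=
  ⟨h.1.trans h'.1, h.2.trans h'.2⟩

/-- chords coming from the left of `a` and ending in `[u, v)` -/
def XL (F : Finset Ed) (a u v : ℕ) : Finset Ed := F.filter (fun e => e.1 < a ∧ u ≤ e.2 ∧ e.2 < v)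

/-- chords starting in `[u, v)` and ending at `c` or to the right of it -/
def XR (F : Finset Ed) (c u v : ℕ) : Finset Ed := F.filter (fun e => c ≤ e.2 ∧ u ≤ e.1 ∧ e.1 < v)

lemma mem_XL {F : Finset Ed} {a u v : ℕ} {e : Ed} :
    e ∈ XL F a u v ↔ e ∈ F ∧ e.1 < a ∧ u ≤ e.2 ∧ e.2 < v := Finset.mem_filter

lemma mem_XR {F : Finset Ed} {c u v : ℕ} {e : Ed} :
    e ∈ XR F c u v ↔ e ∈ F ∧ c ≤ e.2 ∧ u ≤ e.1 ∧ e.1 < v := Finset.mem_filter

/-- colour classes of the chords from the left are separated -/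
def LS (F : Finset Ed) (γ : Ed → ℕ) (a c : ℕ) : Prop :=
  ∀ e ∈ XL F a a c, ∀ e' ∈ XL F a a c, ∀ f ∈ XL F a a c, γ e' = γ f → γ e ≠ γ e' → e.1 < e'.1 →
    e.1 < f.1

/-- colour classes of the chords to the right are separated -/
def RS (F : Finset Ed) (γ : Ed → ℕ) (a c : ℕ) : Prop :=
  ∀ e ∈ XR F c a c, ∀ e' ∈ XR F c a c, ∀ f ∈ XR F c a c, γ e' = γ f → γ e ≠ γ e' → e'.2 < e.2 →
    f.2 < e.2

/-- few cuts make all pieces see few colours from the left -/
lemma cuts_left (F : Finset Ed) (hD : Di F) (b : ℕ) (hno : ¬ Ch Cr F (b + 1)) (γ : Ed → ℕ)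
    (a c : ℕ) (hac : a ≤ c) (hLS : LS F γ a c) :
    ∃ Z : Finset ℕ, Z.card ≤ b * nc γ (XL F a a c) ∧ (∀ z ∈ Z, a < z ∧ z < c) ∧
      ∀ u v, a ≤ u → u ≤ v → v ≤ c → (∀ z ∈ Z, ¬ (u < z ∧ z < v)) → nc γ (XL F a u v) ≤ b + 1 := by
  classical
  obtain ⟨h, hb, hh⟩ : ∃ h : Ed → ℕ, (∀ e ∈ XL F a a c, h e < b) ∧
      ∀ e ∈ XL F a a c, ∀ f ∈ XL F a a c, Ic e f → h e < h f := by
    rcases mirsky_mono (fun e f => Ic f e) (fun x y z h1 h2 => Ic_trans _ _ _ h2 h1) b
      (XL F a a c) with h | ⟨h, h1, h2⟩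
    · exfalso
      obtain ⟨f, hf1, hf2⟩ := h
      apply hno
      refine ⟨fun i => f (b - i), fun i hi => (mem_XL.1 (hf1 _ (by omega))).1, ?_⟩
      intro i j hij hj
      have h3 := hf2 (b - j) (b - i) (by omega) (by omega)
      have h4 := mem_XL.1 (hf1 (b - i) (by omega))
      have h5 := mem_XL.1 (hf1 (b - j) (by omega))
      refine ⟨h3.1, ?_, h3.2⟩
      show (f (b - j)).1 < (f (b - i)).2
      omega
    · exact ⟨h, h1, fun e he f hf hI => h2 f hf e he hI⟩
  obtain ⟨Φ, hΦ1, hΦ2, hΦ3⟩ := potential (XL F a a c) γ (fun e => e.2) h b hb (by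
    intro e he e' he' hne
    have h1 : e.1 ≠ e'.1 := by
      intro hc
      exact hne (by rw [(hD e (mem_XL.1 he).1 e' (mem_XL.1 he').1).1 hc])
    rcases lt_or_gt_of_ne h1 with h2 | h2
    · left
      intro f' hf' hγ hp
      exact hh e he f' hf' ⟨hLS e he e' he' f' hf' hγ.symm hne h2, hp⟩
    · right
      intro f hf hγ hp
      exact hh e' he' f hf ⟨hLS e' he' e he f hf hγ.symm (Ne.symm hne) h2, hp⟩)
  obtain ⟨Z, hZ1, hZ2, hZ3⟩ := cuts c (b + 1) (by omega) (fun u v => nc γ (XL F a u v)) Φ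
    (by
      intro u
      have : XL F a u u = ∅ := by
        rw [Finset.eq_empty_iff_forall_notMem]
        intro e he
        have := mem_XL.1 he
        omega
      simp [this, nc])
    (by
      intro u u' v v' h1 h2
      refine nc_mono ?_
      intro e he
      rw [mem_XL] at he ⊢
      exact ⟨he.1, he.2.1, by omega, by omega⟩)
    (by
      intro u v
      have hsub : (XL F a u (v + 1)).image γ ⊆ (XL F a u v).image γ ∪
          (F.filter (fun e => e.2 = v)).image γ := by
        intro x hx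
        obtain ⟨e, he, rfl⟩ := Finset.mem_image.1 hx
        rw [mem_XL] at he
        rw [Finset.mem_union]
        rcases Nat.lt_or_ge e.2 v with h1 | h1
        · left; exact Finset.mem_image_of_mem _ (mem_XL.2 ⟨he.1, he.2.1, he.2.2.1, h1⟩)
        · right
          exact Finset.mem_image_of_mem _ (Finset.mem_filter.2 ⟨he.1, by omega⟩)
      have hone : ((F.filter (fun e => e.2 = v)).image γ).card ≤ 1 := by
        refine Finset.card_image_le.trans ?_
        rw [Finset.card_le_one]
        intro e he f hf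
        rw [Finset.mem_filter] at he hf
        exact (hD e he.1 f hf.1).2.1 (he.2.trans hf.2.symm)
      have h5 := (Finset.card_le_card hsub).trans (Finset.card_union_le _ _)
      show ((XL F a u (v + 1)).image γ).card ≤ ((XL F a u v).image γ).card + 1
      omega)
    (c - a) a le_rfl hac
    (by
      intro u v hu huv hv hB
      refine hΦ3 u v huv (hB.trans (nc_mono ?_))
      intro e he
      rw [mem_XL] at he
      rw [Finset.mem_filter, mem_XL]
      exact ⟨⟨he.1, he.2.1, by omega, by omega⟩, he.2.2.1, he.2.2.2⟩)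
    (fun u v hu huv hv => hΦ2 u v huv)
  exact ⟨Z, by have := hΦ1 c; omega, hZ2, hZ3⟩

/-- few cuts make all pieces see few colours to the right -/
lemma cuts_right (F : Finset Ed) (hD : Di F) (b : ℕ) (hno : ¬ Ch Cr F (b + 1)) (γ : Ed → ℕ)
    (a c : ℕ) (hac : a ≤ c) (hRS : RS F γ a c) :
    ∃ Z : Finset ℕ, Z.card ≤ b * nc γ (XR F c a c) ∧ (∀ z ∈ Z, a < z ∧ z < c) ∧
      ∀ u v, a ≤ u → u ≤ v → v ≤ c → (∀ z ∈ Z, ¬ (u < z ∧ z < v)) → nc γ (XR F c u v) ≤ b + 1 := by
  classical
  obtain ⟨h, hb, hh⟩ : ∃ h : Ed → ℕ, (∀ e ∈ XR F c a c, h e < b) ∧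
      ∀ e ∈ XR F c a c, ∀ f ∈ XR F c a c, Ic e f → h f < h e := by
    rcases mirsky_mono Ic Ic_trans b (XR F c a c) with h | ⟨h, h1, h2⟩
    · exfalso
      obtain ⟨f, hf1, hf2⟩ := h
      apply hno
      refine ⟨f, fun i hi => (mem_XR.1 (hf1 _ (by omega))).1, ?_⟩
      intro i j hij hj
      have h3 := hf2 i j hij hj
      have h4 := mem_XR.1 (hf1 i (by omega))
      have h5 := mem_XR.1 (hf1 j (by omega))
      exact ⟨h3.1, by omega, h3.2⟩
    · exact ⟨h, h1, h2⟩
  obtain ⟨Φ, hΦ1, hΦ2, hΦ3⟩ := potential (XR F c a c) γ (fun e => c - 1 - e.1) h b hb (by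
    intro e he e' he' hne
    have m1 := mem_XR.1 he
    have m2 := mem_XR.1 he'
    have h1 : e.2 ≠ e'.2 := by
      intro hc
      exact hne (by rw [(hD e m1.1 e' m2.1).2.1 hc])
    rcases lt_or_gt_of_ne h1 with h2 | h2
    · right
      intro f hf hγ hp
      have m3 := mem_XR.1 hf
      refine hh f hf e' he' ⟨by omega, hRS e' he' e he f hf hγ.symm (Ne.symm hne) h2⟩
    · left
      intro f' hf' hγ hp
      have m3 := mem_XR.1 hf'
      refine hh f' hf' e he ⟨by omega, hRS e he e' he' f' hf' hγ.symm hne h2⟩)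
  obtain ⟨Z, hZ1, hZ2, hZ3⟩ := cuts c (b + 1) (by omega) (fun u v => nc γ (XR F c u v))
    (fun x => b * nc γ (XR F c a c) - Φ (c - x))
    (by
      intro u
      have : XR F c u u = ∅ := by
        rw [Finset.eq_empty_iff_forall_notMem]
        intro e he
        have := mem_XR.1 he
        omega
      simp [this, nc])
    (by
      intro u u' v v' h1 h2
      refine nc_mono ?_
      intro e he
      rw [mem_XR] at he ⊢
      exact ⟨he.1, he.2.1, by omega, by omega⟩)
    (by
      intro u v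
      have hsub : (XR F c u (v + 1)).image γ ⊆ (XR F c u v).image γ ∪
          (F.filter (fun e => e.1 = v)).image γ := by
        intro x hx
        obtain ⟨e, he, rfl⟩ := Finset.mem_image.1 hx
        rw [mem_XR] at he
        rw [Finset.mem_union]
        rcases Nat.lt_or_ge e.1 v with h1 | h1
        · left; exact Finset.mem_image_of_mem _ (mem_XR.2 ⟨he.1, he.2.1, he.2.2.1, h1⟩)
        · right
          exact Finset.mem_image_of_mem _ (Finset.mem_filter.2 ⟨he.1, by omega⟩)
      have hone : ((F.filter (fun e => e.1 = v)).image γ).card ≤ 1 := by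
        refine Finset.card_image_le.trans ?_
        rw [Finset.card_le_one]
        intro e he f hf
        rw [Finset.mem_filter] at he hf
        exact (hD e he.1 f hf.1).1 (he.2.trans hf.2.symm)
      have h5 := (Finset.card_le_card hsub).trans (Finset.card_union_le _ _)
      show ((XR F c u (v + 1)).image γ).card ≤ ((XR F c u v).image γ).card + 1
      omega)
    (c - a) a le_rfl hac
    (by
      intro u v hu huv hv hB
      have h6 := hΦ3 (c - v) (c - u) (by omega) (hB.trans (nc_mono (by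
        intro e he
        rw [mem_XR] at he
        rw [Finset.mem_filter, mem_XR]
        exact ⟨⟨he.1, he.2.1, by omega, by omega⟩, by omega, by omega⟩)))
      have h7 := hΦ1 (c - u)
      omega)
    (fun u v hu huv hv => by
      have := hΦ2 (c - v) (c - u) (by omega)
      omega)
  refine ⟨Z, ?_, hZ2, hZ3⟩
  omega

/-- a median of a finite set of naturals -/
lemma median (Z : Finset ℕ) (s : ℕ) (hne : Z.Nonempty) (h : Z.card < 2 ^ (s + 1)) :
    ∃ z ∈ Z, (Z.filter (fun x => x < z)).card < 2 ^ s ∧ (Z.filter (fun x => z < x)).card < 2 ^ s := by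
  classical
  have h2 : 2 ^ (s + 1) = 2 ^ s + 2 ^ s := by rw [pow_succ]; omega
  have hpos : 0 < 2 ^ s := by positivity
  by_cases hex : ∃ z ∈ Z, 2 ^ s ≤ (Z.filter (fun x => x ≤ z)).card
  · obtain ⟨z, hz, hmin⟩ := Finset.exists_min_image
      (Z.filter (fun z => 2 ^ s ≤ (Z.filter (fun x => x ≤ z)).card)) id
      (by obtain ⟨z, hz, h3⟩ := hex; exact ⟨z, Finset.mem_filter.2 ⟨hz, h3⟩⟩)
    rw [Finset.mem_filter] at hz
    refine ⟨z, hz.1, ?_, ?_⟩
    · by_contra hcon
      push Not at hcon
      have hne' : (Z.filter (fun x => x < z)).Nonempty := by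
        rw [← Finset.card_pos]; omega
      obtain ⟨w, hw, hmax⟩ := Finset.exists_max_image (Z.filter (fun x => x < z)) id hne'
      rw [Finset.mem_filter] at hw
      have h4 : (Z.filter (fun x => x < z)) ⊆ (Z.filter (fun x => x ≤ w)) := by
        intro x hx
        have h5 := hmax x hx
        rw [Finset.mem_filter] at hx ⊢
        exact ⟨hx.1, h5⟩
      have h5 := Finset.card_le_card h4
      have h6 := hmin w (Finset.mem_filter.2 ⟨hw.1, by omega⟩)
      simp only [id] at h6
      omega
    · have h7 : (Z.filter (fun x => x ≤ z)).card + (Z.filter (fun x => ¬ x ≤ z)).card = Z.card :=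
        Finset.card_filter_add_card_filter_not _
      have h8 : (Z.filter (fun x => z < x)) = (Z.filter (fun x => ¬ x ≤ z)) := by
        refine Finset.filter_congr ?_
        intro x _
        omega
      rw [h8]
      omega
  · push Not at hex
    obtain ⟨z, hz, hmax⟩ := Finset.exists_max_image Z id hne
    have h4 : (Z.filter (fun x => x < z)) ⊆ (Z.filter (fun x => x ≤ z)) := by
      intro x hx
      rw [Finset.mem_filter] at hx ⊢
      exact ⟨hx.1, hx.2.le⟩
    have h5 := Finset.card_le_card h4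
    have h6 := hex z hz
    have h7 : (Z.filter (fun x => z < x)) = ∅ := by
      rw [Finset.eq_empty_iff_forall_notMem]
      intro x hx
      rw [Finset.mem_filter] at hx
      have := hmax x hx.1
      simp only [id] at this
      omega
    exact ⟨z, hz, by omega, by rw [h7]; simp⟩

end Pool.Agent.KS6_63.MX
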