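import Mathlib
import Pool.Agent.KS6_63.MX.Pillar

/-!
# Circle graphs: the pillar induction (helper63)
-/

set_option autoImplicit false

namespace Pool.Agent.KS6_63.MX

/-- the state of a segment `[a, c)` -/
structure St (F : Finset Ed) (γ : Ed → ℕ) (a c M D t : ℕ) (Z : Finset ℕ) : Prop where
  mem : ∀ z ∈ Z, a < z ∧ z < c
  card : Z.card < 2 ^ t
  left : ∀ u v, a ≤ u → u ≤ v → v ≤ c → (∀ z ∈ Z, ¬ (u < z ∧ z < v)) → nc γ (XL F a u v) + t ≤ M
  right : ∀ u v, a ≤ u → u ≤ v → v ≤ c → (∀ z ∈ Z, ¬ (u < z ∧ z < v)) → nc γ (XR F c u v) + t ≤ M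
  dl : nc γ (XL F a a c) + t ≤ D
  dr : nc γ (XR F c a c) + t ≤ D
  ls : LS F γ a c
  rs : RS F γ a c

/-- the chords inside `[a, c)` have a good colouring -/
def Gd (F : Finset Ed) (γ : Ed → ℕ) (a c K b : ℕ) : Prop :=
  ∃ δ κ : Ed → ℕ, (∀ e ∈ F, a ≤ e.1 → e.2 < c → δ e < K ∧ κ e < b) ∧
    (∀ e ∈ F, a ≤ e.1 → e.2 < c → ∀ f ∈ F, a ≤ f.1 → f.2 < c → Cr e f → δ e = δ f → κ e ≠ κ f) ∧
    (∀ e ∈ F, a ≤ e.1 → e.2 < c → ∀ g ∈ XL F a a c, Cr g e → γ g ≠ δ e) ∧
    (∀ e ∈ F, a ≤ e.1 → e.2 < c → ∀ g ∈ XR F c a c, Cr e g → γ g ≠ δ e)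

lemma nc_congr {γ γ' : Ed → ℕ} {X : Finset Ed} (h : ∀ e ∈ X, γ e = γ' e) : nc γ X = nc γ' X := by
  unfold nc
  rw [Finset.image_congr (fun e he => h e he)]

lemma nc_insert {γ γ' : Ed → ℕ} {X Y : Finset Ed} (q : ℕ)
    (h : ∀ e ∈ X, γ' e = q ∨ (e ∈ Y ∧ γ' e = γ e)) : nc γ' X ≤ nc γ Y + 1 := by
  classical
  unfold nc
  have hsub : X.image γ' ⊆ insert q (Y.image γ) := by
    intro x hx
    obtain ⟨e, he, rfl⟩ := Finset.mem_image.1 hx
    rcases h e he with h1 | ⟨h1, h2⟩
    · rw [h1]; exact Finset.mem_insert_self _ _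
    · rw [h2]; exact Finset.mem_insert_of_mem (Finset.mem_image_of_mem _ h1)
  exact (Finset.card_le_card hsub).trans (Finset.card_insert_le _ _)

/-- one pillar step -/
lemma step (F : Finset Ed) (hW : Wf F) (b : ℕ) (hno : ¬ Ch Cr F (b + 1))
    (M D K : ℕ) (hK : 2 * D < K) (a c : ℕ) (γ : Ed → ℕ) (t : ℕ) (Z : Finset ℕ)
    (hS : St F γ a c M D t Z) (hne : Z.Nonempty)
    (ih : ∀ a' c', a ≤ a' → c' ≤ c → c' - a' < c - a → ∀ (γ : Ed → ℕ) (t : ℕ) (Z : Finset ℕ),
      St F γ a' c' M D t Z → Gd F γ a' c' K b) : Gd F γ a c K b := by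
  classical
  obtain ⟨s, rfl⟩ : ∃ s, t = s + 1 := by
    rcases Nat.eq_zero_or_pos t with h | h
    · have := hS.card
      rw [h] at this
      have h1 := Finset.card_pos.2 hne
      simp at this
      rw [this] at h1
      simp at h1
    · exact ⟨t - 1, by omega⟩
  obtain ⟨z, hz, hz1, hz2⟩ := median Z s hne hS.card
  obtain ⟨haz, hzc⟩ := hS.mem z hz
  -- a fresh colour
  obtain ⟨q, hqK, hq⟩ : ∃ q ∈ Finset.range K, q ∉ (XL F a a c).image γ ∪ (XR F c a c).image γ := by
    refine Finset.exists_mem_notMem_of_card_lt_card ?_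
    have h1 := Finset.card_union_le ((XL F a a c).image γ) ((XR F c a c).image γ)
    have h2 := hS.dl
    have h3 := hS.dr
    unfold nc at h2 h3
    rw [Finset.card_range]
    omega
  rw [Finset.mem_range] at hqK
  rw [Finset.mem_union, not_or] at hq
  have hqL : ∀ e ∈ XL F a a c, γ e ≠ q := fun e he h => hq.1 (h ▸ Finset.mem_image_of_mem _ he)
  have hqR : ∀ e ∈ XR F c a c, γ e ≠ q := fun e he h => hq.2 (h ▸ Finset.mem_image_of_mem _ he)
  -- chords of the new pillar
  set P : Ed → Prop := fun e => a ≤ e.1 ∧ e.1 < z ∧ z ≤ e.2 ∧ e.2 < c with hP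
  obtain ⟨κ0, hκ1, hκ2⟩ : ∃ κ : Ed → ℕ, (∀ e ∈ F, P e → κ e < b) ∧
      ∀ e ∈ F, P e → ∀ f ∈ F, P f → Cr e f → κ e ≠ κ f := by
    rcases mirsky_mono Ic Ic_trans b (F.filter P) with h | ⟨h, h1, h2⟩
    · exfalso
      obtain ⟨f, hf1, hf2⟩ := h
      apply hno
      refine ⟨f, fun i hi => (Finset.mem_filter.1 (hf1 _ (by omega))).1, ?_⟩
      intro i j hij hj
      have h3 := hf2 i j hij hj
      have h4 := (Finset.mem_filter.1 (hf1 i (by omega))).2
      have h5 := (Finset.mem_filter.1 (hf1 j (by omega))).2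
      exact ⟨h3.1, by omega, h3.2⟩
    · refine ⟨h, fun e he hp => h1 e (Finset.mem_filter.2 ⟨he, hp⟩), ?_⟩
      intro e he hp f hf hp' hcr heq
      have := h2 e (Finset.mem_filter.2 ⟨he, hp⟩) f (Finset.mem_filter.2 ⟨hf, hp'⟩) ⟨hcr.1, hcr.2.2⟩
      omega
  set γ' : Ed → ℕ := fun e => if P e then q else γ e with hγ'
  have g1 : ∀ e, P e → γ' e = q := fun e h => by simp only [hγ', if_pos h]
  have g2 : ∀ e, ¬ P e → γ' e = γ e := fun e h => by simp only [hγ', if_neg h]
  -- the left part
  obtain ⟨δ1, κ1, a1, a2, a3, a4⟩ : Gd F γ' a z K b := by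
    refine ih a z le_rfl hzc.le (by omega) γ' s (Z.filter (fun x => x < z)) ?_
    have hXL : ∀ u v, v ≤ z → ∀ e ∈ XL F a u v, ¬ P e := by
      intro u v hv e he hp
      rw [mem_XL] at he
      have := hp.1
      omega
    have hXR : ∀ u v, a ≤ u → v ≤ z → ∀ e ∈ XR F z u v, P e ∧ γ' e = q ∨
        (e ∈ XR F c u v ∧ γ' e = γ e ∧ ¬ P e) := by
      intro u v hu hv e he
      rw [mem_XR] at he
      by_cases hp : P e
      · left; exact ⟨hp, g1 e hp⟩
      · right
        refine ⟨mem_XR.2 ⟨he.1, ?_, he.2.2⟩, g2 e hp, hp⟩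
        by_contra hcon
        exact hp ⟨by omega, by omega, he.2.1, by omega⟩
    have hpiece : ∀ u v, v ≤ z → (∀ x ∈ Z.filter (fun x => x < z), ¬ (u < x ∧ x < v)) →
        ∀ x ∈ Z, ¬ (u < x ∧ x < v) := by
      intro u v hv h x hx hxx
      exact h x (Finset.mem_filter.2 ⟨hx, by omega⟩) hxx
    have hr : ∀ u v, a ≤ u → v ≤ z → nc γ' (XR F z u v) ≤ nc γ (XR F c u v) + 1 := by
      intro u v hu hv
      refine nc_insert q ?_
      intro e he
      rcases hXR u v hu hv e he with h | h
      · left; exact h.2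
      · right; exact ⟨h.1, h.2.1⟩
    refine ⟨?_, hz1, ?_, ?_, ?_, ?_, ?_, ?_⟩
    · intro x hx
      rw [Finset.mem_filter] at hx
      exact ⟨(hS.mem x hx.1).1, hx.2⟩
    · intro u v hu huv hv hno
      have h1 := hS.left u v hu huv (by omega) (hpiece u v hv hno)
      rw [nc_congr (fun e he => g2 e (hXL u v hv e he))]
      omega
    · intro u v hu huv hv hno
      have h1 := hS.right u v hu huv (by omega) (hpiece u v hv hno)
      have h2 := hr u v hu hv
      omega
    · rw [nc_congr (fun e he => g2 e (hXL a z le_rfl e he))]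
      have h1 : nc γ (XL F a a z) ≤ nc γ (XL F a a c) := nc_mono (by
        intro e he
        rw [mem_XL] at he ⊢
        exact ⟨he.1, he.2.1, he.2.2.1, by omega⟩)
      have := hS.dl
      omega
    · have h2 := hr a z le_rfl le_rfl
      have h1 : nc γ (XR F c a z) ≤ nc γ (XR F c a c) := nc_mono (by
        intro e he
        rw [mem_XR] at he ⊢
        exact ⟨he.1, he.2.1, he.2.2.1, by omega⟩)
      have := hS.dr
      omega
    · intro e he e' he' f hf h1 h2 h3
      rw [g2 e' (hXL a z le_rfl e' he')] at h1 h2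
      rw [g2 f (hXL a z le_rfl f hf)] at h1
      rw [g2 e (hXL a z le_rfl e he)] at h2
      have hsub : ∀ e, e ∈ XL F a a z → e ∈ XL F a a c := by
        intro e he
        rw [mem_XL] at he ⊢
        exact ⟨he.1, he.2.1, he.2.2.1, by omega⟩
      exact hS.ls e (hsub e he) e' (hsub e' he') f (hsub f hf) h1 h2 h3
    · intro e he e' he' f hf h1 h2 h3
      have hsub : ∀ e, e ∈ XR F c a z → e ∈ XR F c a c := by
        intro e he
        rw [mem_XR] at he ⊢
        exact ⟨he.1, he.2.1, he.2.2.1, by omega⟩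
      rcases hXR a z le_rfl le_rfl e he with ⟨p1, p2⟩ | ⟨p1, p2, p3⟩
      · rcases hXR a z le_rfl le_rfl e' he' with ⟨p1', p2'⟩ | ⟨p1', p2', p3'⟩
        · exact absurd (p2.trans p2'.symm) h2
        · have h4 := p1.2.2.2
          have h5 := (mem_XR.1 p1').2.1
          omega
      · rcases hXR a z le_rfl le_rfl e' he' with ⟨p1', p2'⟩ | ⟨p1', p2', p3'⟩
        · have h4 : P f := by
            by_contra hcon
            have h5 : γ' f = q := by rw [← h1]; exact p2'
            rw [g2 f hcon] at h5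
            rcases hXR a z le_rfl le_rfl f hf with ⟨r1, _⟩ | ⟨r1, _, _⟩
            · exact hcon r1
            · exact hqR f (hsub f r1) h5
          have h5 := h4.2.2.2
          have h6 := (mem_XR.1 p1).2.1
          omega
        · rcases hXR a z le_rfl le_rfl f hf with ⟨r1, r2⟩ | ⟨r1, r2, r3⟩
          · exfalso
            rw [r2, p2'] at h1
            exact hqR e' (hsub e' p1') h1
          · rw [p2', r2] at h1
            rw [p2, p2'] at h2
            exact hS.rs e (hsub e p1) e' (hsub e' p1') f (hsub f r1) h1 h2 h3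
  -- the right part
  obtain ⟨δ2, κ2, b1, b2, b3, b4⟩ : Gd F γ' z c K b := by
    refine ih z c haz.le le_rfl (by omega) γ' s (Z.filter (fun x => z < x)) ?_
    have hXR : ∀ u v, z ≤ u → ∀ e ∈ XR F c u v, ¬ P e := by
      intro u v hu e he hp
      rw [mem_XR] at he
      have := hp.2.1
      omega
    have hXL : ∀ u v, z ≤ u → v ≤ c → ∀ e ∈ XL F z u v, P e ∧ γ' e = q ∨
        (e ∈ XL F a u v ∧ γ' e = γ e ∧ ¬ P e) := by
      intro u v hu hv e he
      rw [mem_XL] at he
      by_cases hp : P e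
      · left; exact ⟨hp, g1 e hp⟩
      · right
        refine ⟨mem_XL.2 ⟨he.1, ?_, he.2.2⟩, g2 e hp, hp⟩
        by_contra hcon
        exact hp ⟨by omega, he.2.1, by omega, by omega⟩
    have hpiece : ∀ u v, z ≤ u → (∀ x ∈ Z.filter (fun x => z < x), ¬ (u < x ∧ x < v)) →
        ∀ x ∈ Z, ¬ (u < x ∧ x < v) := by
      intro u v hv h x hx hxx
      exact h x (Finset.mem_filter.2 ⟨hx, by omega⟩) hxx
    have hl : ∀ u v, z ≤ u → v ≤ c → nc γ' (XL F z u v) ≤ nc γ (XL F a u v) + 1 := by
      intro u v hu hv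
      refine nc_insert q ?_
      intro e he
      rcases hXL u v hu hv e he with h | h
      · left; exact h.2
      · right; exact ⟨h.1, h.2.1⟩
    refine ⟨?_, hz2, ?_, ?_, ?_, ?_, ?_, ?_⟩
    · intro x hx
      rw [Finset.mem_filter] at hx
      exact ⟨hx.2, (hS.mem x hx.1).2⟩
    · intro u v hu huv hv hno
      have h1 := hS.left u v (by omega) huv hv (hpiece u v hu hno)
      have h2 := hl u v hu hv
      omega
    · intro u v hu huv hv hno
      have h1 := hS.right u v (by omega) huv hv (hpiece u v hu hno)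
      rw [nc_congr (fun e he => g2 e (hXR u v hu e he))]
      omega
    · have h2 := hl z c le_rfl le_rfl
      have h1 : nc γ (XL F a z c) ≤ nc γ (XL F a a c) := nc_mono (by
        intro e he
        rw [mem_XL] at he ⊢
        exact ⟨he.1, he.2.1, by omega, he.2.2.2⟩)
      have := hS.dl
      omega
    · rw [nc_congr (fun e he => g2 e (hXR z c le_rfl e he))]
      have h1 : nc γ (XR F c z c) ≤ nc γ (XR F c a c) := nc_mono (by
        intro e he
        rw [mem_XR] at he ⊢
        exact ⟨he.1, he.2.1, by omega, he.2.2.2⟩)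
      have := hS.dr
      omega
    · intro e he e' he' f hf h1 h2 h3
      have hsub : ∀ e, e ∈ XL F a z c → e ∈ XL F a a c := by
        intro e he
        rw [mem_XL] at he ⊢
        exact ⟨he.1, he.2.1, by omega, he.2.2.2⟩
      rcases hXL z c le_rfl le_rfl e he with ⟨p1, p2⟩ | ⟨p1, p2, p3⟩
      · rcases hXL z c le_rfl le_rfl e' he' with ⟨p1', p2'⟩ | ⟨p1', p2', p3'⟩
        · exact absurd (p2.trans p2'.symm) h2
        · have h4 := p1.1
          have h5 := (mem_XL.1 p1').2.1
          omega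
      · rcases hXL z c le_rfl le_rfl e' he' with ⟨p1', p2'⟩ | ⟨p1', p2', p3'⟩
        · have h4 : P f := by
            by_contra hcon
            have h5 : γ' f = q := by rw [← h1]; exact p2'
            rw [g2 f hcon] at h5
            rcases hXL z c le_rfl le_rfl f hf with ⟨r1, _⟩ | ⟨r1, _, _⟩
            · exact hcon r1
            · exact hqL f (hsub f r1) h5
          have h5 := h4.1
          have h6 := (mem_XL.1 p1).2.1
          omega
        · rcases hXL z c le_rfl le_rfl f hf with ⟨r1, r2⟩ | ⟨r1, r2, r3⟩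
          · exfalso
            rw [r2, p2'] at h1
            exact hqL e' (hsub e' p1') h1
          · rw [p2', r2] at h1
            rw [p2, p2'] at h2
            exact hS.ls e (hsub e p1) e' (hsub e' p1') f (hsub f r1) h1 h2 h3
    · intro e he e' he' f hf h1 h2 h3
      rw [g2 e' (hXR z c le_rfl e' he')] at h1 h2
      rw [g2 f (hXR z c le_rfl f hf)] at h1
      rw [g2 e (hXR z c le_rfl e he)] at h2
      have hsub : ∀ e, e ∈ XR F c z c → e ∈ XR F c a c := by
        intro e he
        rw [mem_XR] at he ⊢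
        exact ⟨he.1, he.2.1, by omega, he.2.2.2⟩
      exact hS.rs e (hsub e he) e' (hsub e' he') f (hsub f hf) h1 h2 h3
  -- combination
  have hsplit : ∀ e ∈ F, a ≤ e.1 → e.2 < c → e.2 < z ∨ (z ≤ e.1 ∧ ¬ e.2 < z) ∨
      (P e ∧ ¬ e.2 < z ∧ ¬ z ≤ e.1) := by
    intro e he h1 h2
    have hw := hW e he
    by_cases h3 : e.2 < z
    · left; exact h3
    · right
      by_cases h4 : z ≤ e.1
      · left; exact ⟨h4, by omega⟩
      · right; exact ⟨⟨h1, by omega, by omega, h2⟩, h3, h4⟩
  refine ⟨fun e => if e.2 < z then δ1 e else if z ≤ e.1 then δ2 e else q,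
    fun e => if e.2 < z then κ1 e else if z ≤ e.1 then κ2 e else κ0 e, ?_, ?_, ?_, ?_⟩
  · intro e he h1 h2
    rcases hsplit e he h1 h2 with h | ⟨h, h'⟩ | ⟨h, h', h''⟩
    · simp only [if_pos h]; exact a1 e he h1 h
    · simp only [if_neg h', if_pos h]; exact b1 e he h h2
    · simp only [if_neg h', if_neg h'']; exact ⟨hqK, hκ1 e he h⟩
  · intro e he e1 e2 f hf f1 f2 hcr
    have hwe := hW e he
    have hwf := hW f hf
    have c1 := hcr.1
    have c2 := hcr.2.1
    have c3 := hcr.2.2
    rcases hsplit e he e1 e2 with h | ⟨h, h'⟩ | ⟨h, h', h''⟩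
    · rcases hsplit f hf f1 f2 with k | ⟨k, k'⟩ | ⟨k, k', k''⟩
      · simp only [if_pos h, if_pos k]; exact a2 e he e1 h f hf f1 k hcr
      · omega
      · simp only [if_pos h, if_neg k', if_neg k'']
        intro hc
        exfalso
        refine a4 e he e1 h f (mem_XR.2 ⟨hf, by omega, f1, by omega⟩) hcr ?_
        rw [hc]; exact g1 f k
    · rcases hsplit f hf f1 f2 with k | ⟨k, k'⟩ | ⟨k, k', k''⟩
      · omega
      · simp only [if_neg h', if_neg k', if_pos h, if_pos k]
        exact b2 e he h e2 f hf k f2 hcr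
      · omega
    · rcases hsplit f hf f1 f2 with k | ⟨k, k'⟩ | ⟨k, k', k''⟩
      · omega
      · simp only [if_neg h', if_neg h'', if_neg k', if_pos k]
        intro hc
        exfalso
        refine b3 f hf k f2 e (mem_XL.2 ⟨he, by omega, by omega, e2⟩) hcr ?_
        rw [← hc]; exact g1 e h
      · simp only [if_neg h', if_neg h'', if_neg k', if_neg k'']
        intro _
        exact hκ2 e he h f hf k hcr
  · intro e he e1 e2 g hg hcr
    have hwe := hW e he
    have hg' := mem_XL.1 hg
    have c1 := hcr.1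
    have c2 := hcr.2.1
    have c3 := hcr.2.2
    have hgP : ¬ P g := fun hp => by have := hp.1; omega
    rcases hsplit e he e1 e2 with h | ⟨h, h'⟩ | ⟨h, h', h''⟩
    · simp only [if_pos h]
      rw [← g2 g hgP]
      exact a3 e he e1 h g (mem_XL.2 ⟨hg'.1, hg'.2.1, hg'.2.2.1, by omega⟩) hcr
    · simp only [if_neg h', if_pos h]
      rw [← g2 g hgP]
      exact b3 e he h e2 g (mem_XL.2 ⟨hg'.1, by omega, by omega, hg'.2.2.2⟩) hcr
    · simp only [if_neg h', if_neg h'']
      exact hqL g hg
  · intro e he e1 e2 g hg hcr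
    have hwe := hW e he
    have hg' := mem_XR.1 hg
    have c1 := hcr.1
    have c2 := hcr.2.1
    have c3 := hcr.2.2
    have hgP : ¬ P g := fun hp => by have := hp.2.2.2; omega
    rcases hsplit e he e1 e2 with h | ⟨h, h'⟩ | ⟨h, h', h''⟩
    · simp only [if_pos h]
      rw [← g2 g hgP]
      exact a4 e he e1 h g (mem_XR.2 ⟨hg'.1, by omega, hg'.2.2.1, by omega⟩) hcr
    · simp only [if_neg h', if_pos h]
      rw [← g2 g hgP]
      exact b4 e he h e2 g (mem_XR.2 ⟨hg'.1, hg'.2.1, by omega, hg'.2.2.2⟩) hcr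
    · simp only [if_neg h', if_neg h'']
      exact hqR g hg

/-- the pillar induction -/
theorem pillar_ind (F : Finset Ed) (hW : Wf F) (hD : Di F) (b : ℕ) (hno : ¬ Ch Cr F (b + 1))
    (T M D K : ℕ) (hM : b + 1 + T ≤ M) (hDM : M + T ≤ D) (hK : 2 * D < K)
    (hT : 2 * (b * M) + 1 < 2 ^ T) :
    ∀ n a c, c - a ≤ n → ∀ (γ : Ed → ℕ) (t : ℕ) (Z : Finset ℕ),
      St F γ a c M D t Z → Gd F γ a c K b := by
  classical
  intro n
  induction n with
  | zero =>
      intro a c hn γ t Z hS
      have hh : ∀ e ∈ F, a ≤ e.1 → e.2 < c → False := by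
        intro e he h1 h2
        have := hW e he
        omega
      exact ⟨fun _ => 0, fun _ => 0, fun e he h1 h2 => (hh e he h1 h2).elim,
        fun e he h1 h2 => (hh e he h1 h2).elim, fun e he h1 h2 => (hh e he h1 h2).elim,
        fun e he h1 h2 => (hh e he h1 h2).elim⟩
  | succ n ih =>
      intro a c hn γ t Z hS
      have hstep : ∀ t (Z : Finset ℕ), Z.Nonempty → St F γ a c M D t Z → Gd F γ a c K b := by
        intro t Z hne hS
        exact step F hW b hno M D K hK a c γ t Z hS hne
          (fun a' c' _ _ hlt γ t Z hS => ih a' c' (by omega) γ t Z hS)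
      rcases Z.eq_empty_or_nonempty with hZ | hZ
      · by_cases hac : a + 2 ≤ c
        · have hl := hS.left a c le_rfl (by omega) le_rfl (by rw [hZ]; simp)
          have hr := hS.right a c le_rfl (by omega) le_rfl (by rw [hZ]; simp)
          obtain ⟨Z1, c1, m1, p1⟩ := cuts_left F hD b hno γ a c (by omega) hS.ls
          obtain ⟨Z2, c2, m2, p2⟩ := cuts_right F hD b hno γ a c (by omega) hS.rs
          refine hstep T (insert (a + 1) (Z1 ∪ Z2)) (Finset.insert_nonempty _ _) ?_
          have hb1 := Nat.mul_le_mul_left b (show nc γ (XL F a a c) ≤ M by omega)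
          have hb2 := Nat.mul_le_mul_left b (show nc γ (XR F c a c) ≤ M by omega)
          refine ⟨?_, ?_, ?_, ?_, ?_, ?_, hS.ls, hS.rs⟩
          · intro z hz
            rw [Finset.mem_insert, Finset.mem_union] at hz
            rcases hz with h | h | h
            · rw [h]; omega
            · exact m1 z h
            · exact m2 z h
          · have h1 := Finset.card_insert_le (a + 1) (Z1 ∪ Z2)
            have h2 := Finset.card_union_le Z1 Z2
            omega
          · intro u v hu huv hv hh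
            have := p1 u v hu huv hv (fun z hz => hh z (by simp [hz]))
            omega
          · intro u v hu huv hv hh
            have := p2 u v hu huv hv (fun z hz => hh z (by simp [hz]))
            omega
          · omega
          · omega
        · have hh : ∀ e ∈ F, a ≤ e.1 → e.2 < c → False := by
            intro e he h1 h2
            have := hW e he
            omega
          exact ⟨fun _ => 0, fun _ => 0, fun e he h1 h2 => (hh e he h1 h2).elim,
            fun e he h1 h2 => (hh e he h1 h2).elim, fun e he h1 h2 => (hh e he h1 h2).elim,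
            fun e he h1 h2 => (hh e he h1 h2).elim⟩
      · exact hstep t Z hZ hS

/-- families of chords with distinct endpoints -/
theorem circ_di (b : ℕ) (F : Finset Ed) (hW : Wf F) (hD : Di F) (h : ¬ Ch Cr F (b + 1))
    (T : ℕ) (hT : 2 * (b * (b + 1 + T)) + 1 < 2 ^ T) :
    Cl F ((2 * (b + 1 + 2 * T) + 1) * b) := by
  classical
  set N := F.sup (fun e => e.2) + 1 with hN
  have hle : ∀ e ∈ F, e.2 < N := fun e he => by
    have := Finset.le_sup (f := fun e : Ed => e.2) he
    rw [hN]
    exact Nat.lt_succ_of_le this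
  have hXL : ∀ u v, XL F 0 u v = ∅ := by
    intro u v
    rw [Finset.eq_empty_iff_forall_notMem]
    intro e he
    have := mem_XL.1 he
    omega
  have hXR : ∀ u v, XR F N u v = ∅ := by
    intro u v
    rw [Finset.eq_empty_iff_forall_notMem]
    intro e he
    have := mem_XR.1 he
    have := hle e this.1
    omega
  obtain ⟨δ, κ, h1, h2, _, _⟩ := pillar_ind F hW hD b h T (b + 1 + T) (b + 1 + T + T)
    (2 * (b + 1 + T + T) + 1) le_rfl le_rfl (by omega) hT N 0 N (by omega) (fun _ => 0) 0 ∅ (by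
      refine ⟨by simp, by simp, ?_, ?_, ?_, ?_, ?_, ?_⟩
      · intro u v _ _ _ _; rw [hXL]; simp [nc]
      · intro u v _ _ _ _; rw [hXR]; simp [nc]
      · rw [hXL]; simp [nc]
      · rw [hXR]; simp [nc]
      · intro e he; rw [hXL] at he; simp at he
      · intro e he; rw [hXR] at he; simp at he)
  refine ⟨fun e => δ e * b + κ e, ?_, ?_⟩
  · intro e he
    have h3 := h1 e he (by omega) (hle e he)
    have h4 := Nat.mul_le_mul_right b (show δ e + 1 ≤ 2 * (b + 1 + 2 * T) + 1 by omega)
    rw [Nat.add_mul] at h4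
    beta_reduce
    omega
  · intro e he f hf hcr heq
    have h3 := h1 e he (by omega) (hle e he)
    have h4 := h1 f hf (by omega) (hle f hf)
    beta_reduce at heq
    have h5 : δ e = δ f ∧ κ e = κ f := by
      rcases lt_trichotomy (δ e) (δ f) with h1 | h1 | h1
      · have := Nat.mul_le_mul_right b (show δ e + 1 ≤ δ f by omega)
        rw [Nat.add_mul] at this
        omega
      · rw [h1] at heq; exact ⟨h1, by omega⟩
      · have := Nat.mul_le_mul_right b (show δ f + 1 ≤ δ e by omega)
        rw [Nat.add_mul] at this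
        omega
    exact h2 e he (by omega) (hle e he) f hf (by omega) (hle f hf) hcr h5.1 h5.2

end Pool.Agent.KS6_63.MX
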