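import Mathlib
import Pool.Agent.KS6_63.MX.Pillar

/-!
# Separated edge sets: a cubic bound (helper63)

The notions `Sep`, `Arr`, `Fam` and the lemma `Arr.fam` are after helper973.
-/

set_option autoImplicit false

namespace Pool.Agent.KS6_63.MX

/-- every left endpoint is before every right endpoint -/
def Sep (S : Finset Ed) : Prop := ∀ e ∈ S, ∀ f ∈ S, e.1 < f.2

lemma Sep.mono {S T : Finset Ed} (h : Sep S) (hTS : T ⊆ S) : Sep T :=
  fun e he f hf => h e (hTS he) f (hTS hf)

/-- `n` sets satisfying `H` in an arrangement given by `rel` -/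
def Arr (rel : Ed → Ed → Prop) (H : Finset Ed → Prop) : ℕ → Finset Ed → Prop
  | 0, _ => True
  | n + 1, S => ∃ X Y, X ⊆ S ∧ Y ⊆ S ∧ H X ∧ (∀ p ∈ X, ∀ q ∈ Y, rel p q) ∧ Arr rel H n Y

lemma Arr.mono {rel : Ed → Ed → Prop} {H : Finset Ed → Prop} {n : ℕ} {S T : Finset Ed}
    (h : Arr rel H n S) (hST : S ⊆ T) : Arr rel H n T := by
  cases n with
  | zero => trivial
  | succ n =>
      obtain ⟨X, Y, hX, hY, h1, h2, h3⟩ := h
      exact ⟨X, Y, hX.trans hST, hY.trans hST, h1, h2, h3⟩

/-- arrangement of `a` families of `b` edges, `A` inside a family, `B` between families -/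
def Fam (A B : Ed → Ed → Prop) (S : Finset Ed) (a b : ℕ) : Prop :=
  ∃ e : ℕ → ℕ → Ed, (∀ i, i < a → ∀ j, j < b → e i j ∈ S) ∧
    (∀ i, i < a → ∀ j j', j < j' → j' < b → A (e i j) (e i j')) ∧
    (∀ i i', i < i' → i' < a → ∀ j, j < b → ∀ j', j' < b → B (e i j) (e i' j'))

lemma Fam.mono {A B : Ed → Ed → Prop} {S T : Finset Ed} {a b : ℕ} (h : Fam A B S a b)
    (hST : S ⊆ T) : Fam A B T a b := by
  obtain ⟨e, h1, h2, h3⟩ := h
  exact ⟨e, fun i hi j hj => hST (h1 i hi j hj), h2, h3⟩

lemma Fam.weak {A B A' B' : Ed → Ed → Prop} {S : Finset Ed} {a b : ℕ} (h : Fam A B S a b)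
    (hA : ∀ e ∈ S, ∀ f ∈ S, A e f → A' e f) (hB : ∀ e ∈ S, ∀ f ∈ S, B e f → B' e f) :
    Fam A' B' S a b := by
  obtain ⟨e, h1, h2, h3⟩ := h
  exact ⟨e, h1, fun i hi j j' hj hj' => hA _ (h1 i hi j (by omega)) _ (h1 i hi j' hj') (h2 i hi j j' hj hj'),
    fun i i' hi hi' j hj j' hj' => hB _ (h1 i (by omega) j hj) _ (h1 i' hi' j' hj')
      (h3 i i' hi hi' j hj j' hj')⟩

lemma Arr.fam {A B : Ed → Ed → Prop} {H : Finset Ed → Prop} {b : ℕ} :
    ∀ (n : ℕ) (S : Finset Ed), (∀ X, X ⊆ S → H X → Ch A X b) →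
    Arr B H n S → Fam A B S n b := by
  intro n
  induction n with
  | zero => intro S _ _; exact ⟨fun _ _ => (0, 0), by omega, by omega, by omega⟩
  | succ n ih =>
      rintro S hHS ⟨X, Y, hX, hY, h1, h2, h3⟩
      obtain ⟨f, hf1, hf2⟩ := hHS X hX h1
      obtain ⟨e, he1, he2, he3⟩ := ih Y (fun Z hZ => hHS Z (hZ.trans hY)) h3
      refine ⟨fun i j => if i = 0 then f j else e (i - 1) j, ?_, ?_, ?_⟩
      · intro i hi j hj
        by_cases hi0 : i = 0
        · simp only [hi0, if_true]; exact hX (hf1 j hj)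
        · simp only [hi0, if_false]; exact hY (he1 (i - 1) (by omega) j hj)
      · intro i hi j j' hj hj'
        by_cases hi0 : i = 0
        · simp only [hi0, if_true]; exact hf2 j j' hj hj'
        · simp only [hi0, if_false]; exact he2 (i - 1) (by omega) j j' hj hj'
      · intro i i' hi hi' j hj j' hj'
        have hi'0 : i' ≠ 0 := by omega
        simp only [hi'0, if_false]
        by_cases hi0 : i = 0
        · simp only [hi0, if_true]
          exact h2 _ (hf1 j hj) _ (he1 (i' - 1) (by omega) j' hj')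
        · simp only [hi0, if_false]
          exact he3 (i - 1) (i' - 1) (by omega) (by omega) j hj j' hj'

lemma Ns_trans' (e f g : Ed) (h : Ns e f) (h' : Ns f g) : Ns e g :=
  ⟨h.1.trans h'.1, h'.2.trans h.2⟩

open Classical in
/-- number of arranged heavy sets after the point `p` -/
noncomputable def lev (rel : Ed → Ed → Prop) (S : Finset Ed) (k m : ℕ) (p : Ed) : ℕ :=
  Nat.findGreatest (fun n => Arr rel (fun X => ¬ SQ X k) n (S.filter (fun q => rel p q))) m

open Classical in
lemma lev_spec (rel : Ed → Ed → Prop) (S : Finset Ed) (k m : ℕ) (p : Ed) :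
    Arr rel (fun X => ¬ SQ X k) (lev rel S k m p) (S.filter (fun q => rel p q)) := by
  classical
  exact Nat.findGreatest_spec (P := fun n => Arr rel (fun X => ¬ SQ X k) n
    (S.filter (fun q => rel p q))) (m := 0) (Nat.zero_le _) trivial

lemma lev_lt (rel : Ed → Ed → Prop) (S : Finset Ed) (k m : ℕ) (p : Ed)
    (h : ¬ Arr rel (fun X => ¬ SQ X k) m S) : lev rel S k m p < m := by
  classical
  have h1 : lev rel S k m p ≤ m := Nat.findGreatest_le m
  refine lt_of_le_of_ne h1 ?_
  intro heq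
  have h2 := lev_spec rel S k m p
  rw [heq] at h2
  exact h (h2.mono (Finset.filter_subset _ _))

open Classical in
/-- the open box between two points of the same level is light -/
lemma box_light (rel : Ed → Ed → Prop) (htr : ∀ a b c, rel a b → rel b c → rel a c)
    (S : Finset Ed) (k m : ℕ) (h : ¬ Arr rel (fun X => ¬ SQ X k) m S) (p q : Ed) (hpq : rel p q)
    (heq : lev rel S k m p = lev rel S k m q) :
    SQ (S.filter (fun r => rel p r ∧ rel r q)) k := by
  classical
  by_contra hcon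
  have h1 := lev_spec rel S k m q
  have h2 := lev_lt rel S k m q h
  have h3 : Arr rel (fun X => ¬ SQ X k) (lev rel S k m q + 1) (S.filter (fun x => rel p x)) := by
    refine ⟨S.filter (fun r => rel p r ∧ rel r q), S.filter (fun x => rel q x), ?_, ?_, hcon, ?_, h1⟩
    · intro x hx
      rw [Finset.mem_filter] at hx ⊢
      exact ⟨hx.1, hx.2.1⟩
    · intro x hx
      rw [Finset.mem_filter] at hx ⊢
      exact ⟨hx.1, htr _ _ _ hpq hx.2⟩
    · intro x hx y hy
      rw [Finset.mem_filter] at hx hy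
      exact htr _ _ _ hx.2.2 hy.2
  have h4 : lev rel S k m q + 1 ≤ lev rel S k m p := Nat.le_findGreatest (by omega) h3
  omega

lemma SQ.line {S : Finset Ed} (h : ∀ e ∈ S, ∀ f ∈ S, ¬ (e.1 < f.1 ∧ e.2 < f.2)) : SQ S 1 :=
  SQ.of_cr (fun _ => 0) (by simp) (fun e he f hf hcr => absurd ⟨hcr.1, hcr.2.2⟩ (h e he f hf))

/-- four lines -/
lemma SQ.lines (S : Finset Ed) (x x' y y' : ℕ) :
    SQ (S.filter (fun e => (e.1 = x ∨ e.1 = x') ∨ (e.2 = y ∨ e.2 = y'))) 4 := by
  classical
  have h1 : ∀ z, SQ (S.filter (fun e => e.1 = z)) 1 := fun z => SQ.line (by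
    intro e he f hf h
    rw [Finset.mem_filter] at he hf
    omega)
  have h2 : ∀ z, SQ (S.filter (fun e => e.2 = z)) 1 := fun z => SQ.line (by
    intro e he f hf h
    rw [Finset.mem_filter] at he hf
    omega)
  have h3 : SQ (S.filter (fun e => e.1 = x ∨ e.1 = x')) (1 + 1) := by
    refine (h1 x).add (h1 x') ?_
    intro e he
    simp only [Finset.mem_filter] at he ⊢
    tauto
  have h4 : SQ (S.filter (fun e => e.2 = y ∨ e.2 = y')) (1 + 1) := by
    refine (h2 y).add (h2 y') ?_
    intro e he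
    simp only [Finset.mem_filter] at he ⊢
    tauto
  refine (h3.add h4 ?_).mono (Finset.Subset.refl _) (by norm_num)
  intro e he
  simp only [Finset.mem_filter] at he ⊢
  tauto

lemma SQ.classes {S : Finset Ed} {n : ℕ} (g : Ed → ℕ) : ∀ m : ℕ, (∀ e ∈ S, g e < m) →
    (∀ i, SQ (S.filter (fun e => g e = i)) n) → SQ S (m * n) := by
  classical
  intro m
  induction m generalizing S with
  | zero =>
      intro h _
      have : S = ∅ := by
        rw [Finset.eq_empty_iff_forall_notMem]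
        intro e he
        exact absurd (h e he) (by omega)
      rw [this]; exact SQ.of_empty _
  | succ m ih =>
      intro h h2
      have h3 : SQ (S.filter (fun e => g e < m)) (m * n) := by
        refine ih (fun e he => (Finset.mem_filter.1 he).2) (fun i => (h2 i).mono ?_ le_rfl)
        intro e he
        simp only [Finset.mem_filter] at he ⊢
        exact ⟨he.1.1, he.2⟩
      have h4 := h3.add (h2 m) (U := S) (by
        intro e he
        simp only [Finset.mem_filter]
        have := h e he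
        rcases Nat.lt_or_ge (g e) m with h5 | h5
        · left; exact ⟨he, h5⟩
        · right; exact ⟨he, by omega⟩)
      refine h4.mono (Finset.Subset.refl _) ?_
      rw [Nat.add_mul, one_mul]

/-- the separated theorem: a cubic bound -/
theorem sep_arr (k a c : ℕ) (S : Finset Ed) (hI : ¬ Arr Ic (fun X => ¬ SQ X k) c S)
    (hN : ¬ Arr Ns (fun X => ¬ SQ X k) a S) : SQ S (c * (a * (5 * (k + 4)))) := by
  classical
  refine SQ.classes (lev Ic S k c) c (fun e _ => lev_lt Ic S k c e hI) (fun i => ?_)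
  refine SQ.classes (lev Ns S k a) a (fun e _ => lev_lt Ns S k a e hN) (fun j => ?_)
  set R := (S.filter (fun e => lev Ic S k c e = i)).filter (fun e => lev Ns S k a e = j) with hR
  have hRm : ∀ e ∈ R, e ∈ S ∧ lev Ic S k c e = i ∧ lev Ns S k a e = j := by
    intro e he
    simp only [hR, Finset.mem_filter] at he
    exact ⟨he.1.1, he.1.2, he.2⟩
  -- closed boxes
  have hbox : ∀ p ∈ R, ∀ q ∈ R, p.1 ≤ q.1 → SQ (S.filter (fun r => p.1 ≤ r.1 ∧ r.1 ≤ q.1 ∧
      min p.2 q.2 ≤ r.2 ∧ r.2 ≤ max p.2 q.2)) (k + 4) := by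
    intro p hp q hq hpq
    have mp := hRm p hp
    have mq := hRm q hq
    rcases lt_trichotomy p.2 q.2 with h | h | h
    · rcases Nat.eq_or_lt_of_le hpq with h' | h'
      · refine (SQ.lines S p.1 p.1 0 0).mono ?_ (by omega)
        intro e he
        simp only [Finset.mem_filter] at he ⊢
        exact ⟨he.1, by omega⟩
      · refine (box_light Ic Ic_trans S k c hI p q ⟨h', h⟩ (mp.2.1.trans mq.2.1.symm)).add
          (SQ.lines S p.1 q.1 p.2 q.2) ?_
        intro e he
        rw [Finset.mem_filter, min_eq_left h.le, max_eq_right h.le] at he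
        by_cases h3 : (e.1 = p.1 ∨ e.1 = q.1) ∨ (e.2 = p.2 ∨ e.2 = q.2)
        · right; exact Finset.mem_filter.2 ⟨he.1, h3⟩
        · left; exact Finset.mem_filter.2 ⟨he.1, ⟨by omega, by omega⟩, ⟨by omega, by omega⟩⟩
    · refine (SQ.lines S 0 0 p.2 p.2).mono ?_ (by omega)
      intro e he
      simp only [Finset.mem_filter] at he ⊢
      rw [h, min_self, max_self] at he
      exact ⟨he.1, by omega⟩
    · rcases Nat.eq_or_lt_of_le hpq with h' | h'
      · refine (SQ.lines S p.1 p.1 0 0).mono ?_ (by omega)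
        intro e he
        simp only [Finset.mem_filter] at he ⊢
        exact ⟨he.1, by omega⟩
      · refine (box_light Ns Ns_trans' S k a hN p q ⟨h', h⟩ (mp.2.2.trans mq.2.2.symm)).add
          (SQ.lines S p.1 q.1 p.2 q.2) ?_
        intro e he
        rw [Finset.mem_filter, min_eq_right h.le, max_eq_left h.le] at he
        by_cases h3 : (e.1 = p.1 ∨ e.1 = q.1) ∨ (e.2 = p.2 ∨ e.2 = q.2)
        · right; exact Finset.mem_filter.2 ⟨he.1, h3⟩
        · left; exact Finset.mem_filter.2 ⟨he.1, ⟨by omega, by omega⟩, ⟨by omega, by omega⟩⟩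
  rcases R.eq_empty_or_nonempty with hne | hne
  · rw [hne]; exact SQ.of_empty _
  obtain ⟨l, hl, hlm⟩ := Finset.exists_min_image R (fun e => e.1) hne
  obtain ⟨r, hr, hrm⟩ := Finset.exists_max_image R (fun e => e.1) hne
  obtain ⟨b, hb, hbm⟩ := Finset.exists_min_image R (fun e => e.2) hne
  obtain ⟨t, ht, htm⟩ := Finset.exists_max_image R (fun e => e.2) hne
  have h1 := hbox l hl t ht (hlm t ht)
  have h2 := hbox t ht r hr (hrm t ht)
  have h3 := hbox l hl b hb (hlm b hb)
  have h4 := hbox b hb r hr (hrm b hb)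
  have h5 := hbox l hl r hr (hlm r hr)
  have h12 := h1.add h2 (U := (S.filter (fun e => l.1 ≤ e.1 ∧ e.1 ≤ t.1 ∧
      min l.2 t.2 ≤ e.2 ∧ e.2 ≤ max l.2 t.2)) ∪ (S.filter (fun e => t.1 ≤ e.1 ∧ e.1 ≤ r.1 ∧
      min t.2 r.2 ≤ e.2 ∧ e.2 ≤ max t.2 r.2))) (fun e he => Finset.mem_union.1 he)
  have h34 := h3.add h4 (U := (S.filter (fun e => l.1 ≤ e.1 ∧ e.1 ≤ b.1 ∧
      min l.2 b.2 ≤ e.2 ∧ e.2 ≤ max l.2 b.2)) ∪ (S.filter (fun e => b.1 ≤ e.1 ∧ e.1 ≤ r.1 ∧
      min b.2 r.2 ≤ e.2 ∧ e.2 ≤ max b.2 r.2))) (fun e he => Finset.mem_union.1 he)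
  have h1234 := h12.add h34 (U := _ ∪ _) (fun e he => Finset.mem_union.1 he)
  refine (h1234.add h5 (U := R) ?_).mono (Finset.Subset.refl _) (by omega)
  intro e he
  have e1 := hlm e he
  have e2 := hrm e he
  have e3 := hbm e he
  have e4 := htm e he
  have e5 := hbm l hl
  have e6 := htm l hl
  have e7 := hbm r hr
  have e8 := htm r hr
  have e9 := hlm t ht
  have e10 := hrm t ht
  have e11 := hlm b hb
  have e12 := hrm b hb
  beta_reduce at e1 e2 e3 e4 e5 e6 e7 e8 e9 e10 e11 e12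
  have hes := (hRm e he).1
  simp only [Finset.mem_union, Finset.mem_filter, hes, true_and]
  rw [min_eq_left e6, max_eq_right e6, min_eq_right e8, max_eq_left e8, min_eq_right e5,
    max_eq_left e5, min_eq_left e7, max_eq_right e7]
  rcases Nat.lt_or_ge l.2 r.2 with h | h
  · rw [min_eq_left h.le, max_eq_right h.le]
    omega
  · rw [min_eq_right h, max_eq_left h]
    omega

/-- the separated theorem for edges -/
theorem sep_poly (k a c : ℕ) (S : Finset Ed) (hS : Sep S) (h1 : ¬ Fam Cr Ns S a k)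
    (h2 : ¬ Fam Ns Cr S c k) : SQ S (c * (a * (5 * (k + 4)))) := by
  have hIcCr : ∀ e ∈ S, ∀ f ∈ S, Ic e f → Cr e f := fun e he f hf h => ⟨h.1, hS f hf e he, h.2⟩
  have hcr : ∀ X, X ⊆ S → ¬ SQ X k → Ch Ic X k := by
    intro X hX hXk
    rcases mirsky Ic Ic_trans k X with h | ⟨c, hc1, hc2⟩
    · exact h.mono (Finset.Subset.refl _) (by omega)
    · exact absurd (SQ.of_cr c hc1 (fun e he f hf h => hc2 e he f hf ⟨h.1, h.2.2⟩)) hXk
  have hns : ∀ X, X ⊆ S → ¬ SQ X k → Ch Ns X k := by
    intro X hX hXk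
    rcases mirsky Ns Ns_trans' k X with h | ⟨c, hc1, hc2⟩
    · exact h.mono (Finset.Subset.refl _) (by omega)
    · exact absurd (SQ.of_ns c hc1 hc2) hXk
  refine sep_arr k a c S ?_ ?_
  · intro h
    apply h2
    have := Arr.fam (A := Ns) (B := Ic) (b := k) (H := fun X => ¬ SQ X k) c S hns h
    exact this.weak (fun _ _ _ _ h => h) hIcCr
  · intro h
    apply h1
    have := Arr.fam (A := Ic) (B := Ns) (b := k) (H := fun X => ¬ SQ X k) a S hcr h
    exact this.weak hIcCr (fun _ _ _ _ h => h)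

end Pool.Agent.KS6_63.MX
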