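import Mathlib
import Pool.Agent.KS6_63.MX.PillarInd
import Pool.Agent.KS6_63.MX.Sep

/-!
# Greedy stations, and circle graphs with shared endpoints (after helper973)
-/

set_option autoImplicit false

namespace Pool.Agent.KS6_63.MX

open Classical in
/-- greedy partition of the line into minimal intervals satisfying `Q` -/
noncomputable def gp (Q : ℕ → ℕ → Prop) : ℕ → ℕ × ℕ
  | 0 => (0, 0)
  | x + 1 => if Q (gp Q x).2 (x + 1) then ((gp Q x).1 + 1, x + 1) else gp Q x

/-- index of the station containing a point -/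
noncomputable def st (Q : ℕ → ℕ → Prop) (x : ℕ) : ℕ := (gp Q x).1

/-- beginning of the station containing a point -/
noncomputable def bg (Q : ℕ → ℕ → Prop) (x : ℕ) : ℕ := (gp Q x).2

section
variable (Q : ℕ → ℕ → Prop)

lemma st_pos {x : ℕ} (h : Q (bg Q x) (x + 1)) :
    st Q (x + 1) = st Q x + 1 ∧ bg Q (x + 1) = x + 1 := by
  unfold st bg at *
  simp [gp, h]

lemma st_neg {x : ℕ} (h : ¬ Q (bg Q x) (x + 1)) :
    st Q (x + 1) = st Q x ∧ bg Q (x + 1) = bg Q x := by
  unfold st bg at *
  simp [gp, h]

lemma bg_le (x : ℕ) : bg Q x ≤ x := by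
  induction x with
  | zero => simp [bg, gp]
  | succ x ih =>
      by_cases h : Q (bg Q x) (x + 1)
      · rw [(st_pos Q h).2]
      · rw [(st_neg Q h).2]; omega

lemma st_step (x : ℕ) : st Q x ≤ st Q (x + 1) ∧ st Q (x + 1) ≤ st Q x + 1 := by
  by_cases h : Q (bg Q x) (x + 1)
  · rw [(st_pos Q h).1]; omega
  · rw [(st_neg Q h).1]; omega

lemma st_mono {x y : ℕ} (h : x ≤ y) : st Q x ≤ st Q y :=
  monotone_nat_of_le_succ (fun n => (st_step Q n).1) h

lemma st_const (x : ℕ) : ∀ z, bg Q x ≤ z → z ≤ x → st Q z = st Q x := by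
  induction x with
  | zero => intro z _ hz; have : z = 0 := by omega
            rw [this]
  | succ x ih =>
      intro z h1 h2
      by_cases h : Q (bg Q x) (x + 1)
      · rw [(st_pos Q h).2] at h1
        have : z = x + 1 := by omega
        rw [this]
      · rw [(st_neg Q h).2] at h1
        rcases Nat.lt_or_ge z (x + 1) with h3 | h3
        · rw [(st_neg Q h).1]; exact ih z h1 (by omega)
        · have : z = x + 1 := by omega
          rw [this]

lemma st_lt_of_lt_bg (x : ℕ) : ∀ u, u < bg Q x → st Q u < st Q x := by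
  induction x with
  | zero => intro u hu; simp [bg, gp] at hu
  | succ x ih =>
      intro u hu
      by_cases h : Q (bg Q x) (x + 1)
      · rw [(st_pos Q h).2] at hu
        rw [(st_pos Q h).1]
        have := st_mono Q (x := u) (y := x) (by omega)
        omega
      · rw [(st_neg Q h).2] at hu
        rw [(st_neg Q h).1]
        exact ih u hu

lemma bg_le_of_st_eq {u x : ℕ} (h : st Q u = st Q x) : bg Q x ≤ u := by
  by_contra hcon
  have := st_lt_of_lt_bg Q x u (by omega)
  omega

lemma st_complete (y : ℕ) : ∀ i, i < st Q y → ∃ a c, Q a c ∧ ∀ z, a ≤ z → z < c → st Q z = i := by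
  induction y with
  | zero => intro i hi; simp [st, gp] at hi
  | succ y ih =>
      intro i hi
      by_cases h : Q (bg Q y) (y + 1)
      · rw [(st_pos Q h).1] at hi
        rcases Nat.lt_or_ge i (st Q y) with h1 | h1
        · exact ih i h1
        · refine ⟨bg Q y, y + 1, h, fun z h2 h3 => ?_⟩
          rw [st_const Q y z h2 (by omega)]
          omega
      · rw [(st_neg Q h).1] at hi
        exact ih i hi

end

/-- general families: endpoints may be shared -/
theorem circ (b : ℕ) (S : Finset Ed) (hW : Wf S) (h : ¬ Ch Cr S (b + 1))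
    (T : ℕ) (hT : 2 * (b * (b + 1 + T)) + 1 < 2 ^ T) :
    Cl S ((2 * (b + 1 + 2 * T) + 1) * b) := by
  classical
  set B := S.sup (fun e => e.2) with hB
  have hle : ∀ e ∈ S, e.2 ≤ B := fun e he => Finset.le_sup (f := fun e : Ed => e.2) he
  set W := 2 * B + 2 with hWdef
  set φ : Ed → Ed := fun e => (e.1 * W + (B + 1 + (B - e.2)), e.2 * W + (B - e.1)) with hφ
  have hmul : ∀ {x y : ℕ}, x < y → x * W + W ≤ y * W := by
    intro x y hxy
    have := Nat.mul_le_mul_right W (show x + 1 ≤ y by omega)
    rwa [Nat.add_mul, one_mul] at this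
  have hmul' : ∀ {x y : ℕ}, x ≤ y → x * W ≤ y * W := fun h => Nat.mul_le_mul_right W h
  -- comparison lemmas
  have hLL : ∀ e ∈ S, ∀ f ∈ S, (φ e).1 < (φ f).1 → e.1 < f.1 ∨ (e.1 = f.1 ∧ f.2 < e.2) := by
    intro e he f hf hlt
    simp only [hφ] at hlt
    have h1 := hle e he
    have h2 := hle f hf
    rcases lt_trichotomy e.1 f.1 with h3 | h3 | h3
    · exact Or.inl h3
    · right
      rw [h3] at hlt
      exact ⟨h3, by omega⟩
    · have := hmul h3
      omega
  have hRR : ∀ e ∈ S, ∀ f ∈ S, (φ e).2 < (φ f).2 → e.2 < f.2 ∨ (e.2 = f.2 ∧ f.1 < e.1) := by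
    intro e he f hf hlt
    simp only [hφ] at hlt
    have h1 := hle e he
    have h2 := hle f hf
    have h1' := hW e he
    have h2' := hW f hf
    rcases lt_trichotomy e.2 f.2 with h3 | h3 | h3
    · exact Or.inl h3
    · right
      rw [h3] at hlt
      exact ⟨h3, by omega⟩
    · have := hmul h3
      omega
  have hLR : ∀ e ∈ S, ∀ f ∈ S, (φ e).1 < (φ f).2 → e.1 < f.2 := by
    intro e he f hf hlt
    simp only [hφ] at hlt
    have h1 := hle e he
    have h2 := hle f hf
    by_contra h3
    rcases Nat.lt_or_ge f.2 e.1 with h4 | h4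
    · have := hmul h4
      omega
    · have h5 : e.1 = f.2 := by omega
      rw [h5] at hlt
      omega
  have hback : ∀ e ∈ S, ∀ f ∈ S, Cr (φ e) (φ f) → Cr e f := by
    intro e he f hf hcr
    have h1 := hLL e he f hf hcr.1
    have h2 := hLR f hf e he hcr.2.1
    have h3 := hRR e he f hf hcr.2.2
    refine ⟨by omega, h2, by omega⟩
  have hfor : ∀ e ∈ S, ∀ f ∈ S, Cr e f → Cr (φ e) (φ f) := by
    intro e he f hf hcr
    have h1 := hle e he
    have h2 := hle f hf
    have h1' := hW e he
    have h2' := hW f hf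
    refine ⟨?_, ?_, ?_⟩
    · simp only [hφ]; have := hmul hcr.1; omega
    · simp only [hφ]; have := hmul hcr.2.1; omega
    · simp only [hφ]; have := hmul hcr.2.2; omega
  have hWφ : Wf (S.image φ) := by
    intro x hx
    obtain ⟨e, he, rfl⟩ := Finset.mem_image.1 hx
    simp only [hφ]
    have h1 := hle e he
    have := hmul (hW e he)
    omega
  have hDφ : Di (S.image φ) := by
    intro x hx y hy
    obtain ⟨e, he, rfl⟩ := Finset.mem_image.1 hx
    obtain ⟨f, hf, rfl⟩ := Finset.mem_image.1 hy
    have h1 := hle e he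
    have h2 := hle f hf
    have h1' := hW e he
    have h2' := hW f hf
    refine ⟨?_, ?_, ?_⟩
    · intro heq
      have h3 : e.1 = f.1 := by
        simp only [hφ] at heq
        rcases lt_trichotomy e.1 f.1 with h3 | h3 | h3
        · have := hmul h3; omega
        · exact h3
        · have := hmul h3; omega
      have h4 : e.2 = f.2 := by
        simp only [hφ] at heq
        rw [h3] at heq
        omega
      rw [Prod.ext h3 h4]
    · intro heq
      have h3 : e.2 = f.2 := by
        simp only [hφ] at heq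
        rcases lt_trichotomy e.2 f.2 with h3 | h3 | h3
        · have := hmul h3; omega
        · exact h3
        · have := hmul h3; omega
      have h4 : e.1 = f.1 := by
        simp only [hφ] at heq
        rw [h3] at heq
        omega
      rw [Prod.ext h4 h3]
    · intro heq
      simp only [hφ] at heq
      rcases lt_trichotomy e.1 f.2 with h3 | h3 | h3
      · have := hmul h3; omega
      · rw [h3] at heq; omega
      · have := hmul h3; omega
  have hnot : ¬ Ch Cr (S.image φ) (b + 1) := by
    rintro ⟨f, hf1, hf2⟩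
    apply h
    have hex : ∀ i, i < b + 1 → ∃ e ∈ S, φ e = f i := by
      intro i hi
      exact Finset.mem_image.1 (hf1 i hi)
    choose! g hg1 hg2 using hex
    refine ⟨g, hg1, fun i j hij hj => hback _ (hg1 i (by omega)) _ (hg1 j hj) ?_⟩
    rw [hg2 i (by omega), hg2 j hj]
    exact hf2 i j hij hj
  obtain ⟨c, hc1, hc2⟩ := circ_di b (S.image φ) hWφ hDφ hnot T hT
  exact ⟨fun e => c (φ e), fun e he => hc1 _ (Finset.mem_image_of_mem _ he),
    fun e he f hf hcr => hc2 _ (Finset.mem_image_of_mem _ he) _ (Finset.mem_image_of_mem _ hf)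
      (hfor e he f hf hcr)⟩


lemma two_pow_bound (b : ℕ) : 2 * (b * (b + 1 + (b + 6))) + 1 < 2 ^ (b + 6) := by
  have h : ∀ b : ℕ, 4 * (b * b) + 14 * b + 1 < 2 ^ (b + 6) := by
    intro b
    induction b with
    | zero => norm_num
    | succ n ih =>
        have h1 : 2 ^ (n + 1 + 6) = 2 ^ (n + 6) + 2 ^ (n + 6) := by
          rw [show n + 1 + 6 = (n + 6) + 1 by omega, pow_succ]; omega
        have h2 : 8 * n + 17 < 2 ^ (n + 6) := by
          clear ih h1
          induction n with
          | zero => norm_num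
          | succ n ih =>
              have h1 : 2 ^ (n + 1 + 6) = 2 ^ (n + 6) + 2 ^ (n + 6) := by
                rw [show n + 1 + 6 = (n + 6) + 1 by omega, pow_succ]; omega
              have h2 : 64 ≤ 2 ^ (n + 6) := by
                calc 64 = 2 ^ 6 := by norm_num
                  _ ≤ 2 ^ (n + 6) := Nat.pow_le_pow_right (by norm_num) (by omega)
              omega
        have h3 : (n + 1) * (n + 1) = n * n + 2 * n + 1 := by ring
        omega
  have h1 := h b
  have h2 : 2 * (b * (b + 1 + (b + 6))) = 4 * (b * b) + 14 * b := by ring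
  omega

/-- circle graphs: no `n + 1` pairwise crossing chords implies `6 n ^ 2 + 27 n` colours -/
theorem circ_poly (n : ℕ) (S : Finset Ed) (hW : Wf S) (h : ¬ Ch Cr S (n + 1)) :
    Cl S ((6 * n + 27) * n) := by
  have := circ n S hW h (n + 6) (two_pow_bound n)
  have h2 : 2 * (n + 1 + 2 * (n + 6)) + 1 = 6 * n + 27 := by ring
  rwa [h2] at this

end Pool.Agent.KS6_63.MX
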