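import Mathlib
import Pool.Agent.KS6_63.MX.Stn

/-!
# The main induction with polynomial bounds (helper63)

Stations are now minimal intervals that contain `a` nested copies of a `b`-twist, so that the edges
over a station contain no `3b`-twist; the induction is on `a` only and `b` never grows.
-/

set_option autoImplicit false

namespace Pool.Agent.KS6_63.MX

open Classical in
/-- station predicate: the interval `[p, q)` contains `a` nested copies of `b`-twists of `S` -/
def FQ (S : Finset Ed) (a b : ℕ) (p q : ℕ) : Prop :=
  Fam Cr Ns (S.filter (fun e => p ≤ e.1 ∧ e.2 < q)) a b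

/-- long edges contain no `3b`-twist -/
lemma long_twist (S : Finset Ed) (hS : Wf S) (a b : ℕ) (ha : 1 ≤ a) (hb : 1 ≤ b)
    (h : Ch Cr (S.filter (fun e => st (FQ S a b) e.1 + 2 ≤ st (FQ S a b) e.2)) (3 * b)) :
    Fam Cr Ns S (a + 1) b := by
  classical
  set s := st (FQ S a b) with hs
  have smono : ∀ {x y : ℕ}, x ≤ y → s x ≤ s y := fun h => st_mono (FQ S a b) h
  obtain ⟨e, he1, he2⟩ := h
  have hmem : ∀ j, j < 3 * b → e j ∈ S ∧ s (e j).1 + 2 ≤ s (e j).2 := by
    intro j hj
    exact Finset.mem_filter.1 (he1 j hj)
  have hle : ∀ j j', j ≤ j' → j' < 3 * b → s (e j).1 ≤ s (e j').1 := by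
    intro j j' hj hj'
    rcases Nat.lt_or_ge j j' with h | h
    · exact smono (he2 j j' h hj').1.le
    · have : j = j' := by omega
      rw [this]
  have hγ2 : ∀ j, j < 3 * b → s (e (3 * b - 1)).1 ≤ s (e j).2 := by
    intro j hj
    rcases Nat.lt_or_ge j (3 * b - 1) with h | h
    · exact smono (he2 j (3 * b - 1) h (by omega)).2.1.le
    · have h1 : j = 3 * b - 1 := by omega
      rw [h1]
      exact smono (hS _ (hmem (3 * b - 1) (by omega)).1).le
  have key : ∃ c t, c + b ≤ 3 * b ∧ ∀ j, j < b → s (e (c + j)).1 < t ∧ t < s (e (c + j)).2 := by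
    by_cases hA : s (e (b - 1)).1 + 2 ≤ s (e (3 * b - 1)).1
    · refine ⟨0, s (e (3 * b - 1)).1 - 1, by omega, fun j hj => ?_⟩
      have h1 := hle (0 + j) (b - 1) (by omega) (by omega)
      have h2 := hγ2 (0 + j) (by omega)
      omega
    · by_cases hB : s (e (2 * b - 1)).1 + 1 ≤ s (e (3 * b - 1)).1
      · refine ⟨b, s (e (3 * b - 1)).1, by omega, fun j hj => ?_⟩
        have h1 := hle (b - 1) (b + j) (by omega) (by omega)
        have h2 := hle (b + j) (2 * b - 1) (by omega) (by omega)
        have h3 := (hmem (b + j) (by omega)).2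
        omega
      · refine ⟨2 * b, s (e (3 * b - 1)).1 + 1, by omega, fun j hj => ?_⟩
        have h1 := hle (2 * b - 1) (2 * b + j) (by omega) (by omega)
        have h2 := hle (2 * b + j) (3 * b - 1) (by omega) (by omega)
        have h3 := (hmem (2 * b + j) (by omega)).2
        omega
  obtain ⟨c, t, hc, hct⟩ := key
  obtain ⟨p, q, ⟨τ, hτ1, hτ2, hτ3⟩, hz⟩ := st_complete (FQ S a b) _ t (hct 0 (by omega)).2
  have hτm : ∀ i, i < a → ∀ j, j < b → τ i j ∈ S ∧ p ≤ (τ i j).1 ∧ (τ i j).2 < q := fun i hi j hj =>
    Finset.mem_filter.1 (hτ1 i hi j hj)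
  have hτs : ∀ i, i < a → ∀ j, j < b → s (τ i j).1 = t ∧ s (τ i j).2 = t := by
    intro i hi j hj
    have h1 := hτm i hi j hj
    have h2 := hS _ h1.1
    exact ⟨hz _ h1.2.1 (by omega), hz _ (by omega) h1.2.2⟩
  have hnest : ∀ j, j < b → ∀ i, i < a → ∀ j', j' < b → Ns (e (c + j)) (τ i j') := by
    intro j hj i hi j' hj'
    have h1 := hct j hj
    have h2 := hτs i hi j' hj'
    constructor
    · by_contra hcon
      have := smono (show (τ i j').1 ≤ (e (c + j)).1 by omega)
      omega
    · by_contra hcon
      have := smono (show (e (c + j)).2 ≤ (τ i j').2 by omega)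
      omega
  refine ⟨fun i j => if i = 0 then e (c + j) else τ (i - 1) j, ?_, ?_, ?_⟩
  · intro i hi j hj
    by_cases h : i = 0
    · simp only [h, if_true]; exact (hmem (c + j) (by omega)).1
    · simp only [h, if_false]; exact (hτm (i - 1) (by omega) j hj).1
  · intro i hi j j' hj hj'
    by_cases h : i = 0
    · simp only [h, if_true]; exact he2 _ _ (by omega) (by omega)
    · simp only [h, if_false]; exact hτ2 (i - 1) (by omega) j j' hj hj'
  · intro i i' hi hi' j hj j' hj'
    have h : i' ≠ 0 := by omega
    by_cases h' : i = 0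
    · simp only [h, h', if_true, if_false]; exact hnest j hj (i' - 1) (by omega) j' hj'
    · simp only [h, h', if_false]; exact hτ3 (i - 1) (i' - 1) (by omega) (by omega) j hj j' hj'

/-- the polynomial main induction; `P` bounds the number of stacks needed without a `3k`-twist -/
theorem main_ind (k P : ℕ) (hk : 1 ≤ k)
    (hP : ∀ S : Finset Ed, Wf S → ¬ Ch Cr S (3 * k) → Cl S P) :
    ∀ a : ℕ, ∀ S : Finset Ed, Wf S → ¬ Fam Cr Ns S (a + 1) k → ¬ Fam Ns Cr S k k →
      SQ S ((a + 1) * (P + 1) + (a + 1) * (a + 2) * (5 * k * (k + 4))) := by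
  classical
  intro a
  induction a with
  | zero =>
      intro S hS h1 _
      obtain ⟨c, hc1, hc2⟩ := hP S hS (by
        rintro ⟨f, hf1, hf2⟩
        exact h1 ⟨fun _ j => f j, fun _ _ j hj => hf1 j (by omega),
          fun _ _ j j' hj hj' => hf2 j j' hj (by omega), fun i i' hi hi' => by omega⟩)
      refine (SQ.of_cr c hc1 hc2).mono (Finset.Subset.refl _) ?_
      have : (0 + 1) * (P + 1) = P + 1 := by ring
      omega
  | succ a ih =>
      intro S hS h1 h3
      set s := st (FQ S (a + 1) k) with hs
      have smono : ∀ {x y : ℕ}, x ≤ y → s x ≤ s y := fun h => st_mono (FQ S (a + 1) k) h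
      have hWs : ∀ {T : Finset Ed}, T ⊆ S → Wf T := fun h => hS.mono h
      -- inner edges
      have hIn : SQ (S.filter (fun e => s e.1 = s e.2 ∧ s (e.2 + 1) = s e.2))
          ((a + 1) * (P + 1) + (a + 1) * (a + 2) * (5 * k * (k + 4))) := by
        refine SQ.blocks (fun e => s e.1) ?_ ?_
        · intro e he f hf hne
          rw [Finset.mem_filter] at he hf
          beta_reduce at hne
          constructor
          · intro hcr
            have e1 := smono hcr.1.le
            have e2 := smono hcr.2.1.le
            omega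
          · intro hns
            have e1 := smono hns.1.le
            have e2 := smono hns.2.le
            have e3 := smono (hS f hf.1).le
            omega
        · intro i
          have hsub : ((S.filter (fun e => s e.1 = s e.2 ∧ s (e.2 + 1) = s e.2)).filter
              (fun e => s e.1 = i)) ⊆ S := (Finset.filter_subset _ _).trans (Finset.filter_subset _ _)
          refine ih _ (hWs hsub) ?_ (fun h => h3 (h.mono hsub))
          rintro ⟨f, hf1, hf2, hf3⟩
          have hm : ∀ x, x < a + 1 → ∀ j, j < k → f x j ∈ S ∧ s (f x j).1 = i ∧ s (f x j).2 = i ∧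
              s ((f x j).2 + 1) = i := by
            intro x hx j hj
            have h5 := hf1 x hx j hj
            simp only [Finset.mem_filter] at h5
            exact ⟨h5.1.1, by omega, by omega, by omega⟩
          -- the rightmost endpoint of the family
          have hle : ∀ x, x < a + 1 → ∀ j, j < k → (f x j).2 ≤ (f 0 (k - 1)).2 := by
            intro x hx j hj
            have h6 : (f x j).2 ≤ (f 0 j).2 := by
              rcases Nat.eq_zero_or_pos x with h | h
              · rw [h]
              · exact (hf3 0 x h hx j hj j hj).2.le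
            have h7 : (f 0 j).2 ≤ (f 0 (k - 1)).2 := by
              rcases Nat.lt_or_ge j (k - 1) with h | h
              · exact (hf2 0 (by omega) j (k - 1) h (by omega)).2.2.le
              · have : j = k - 1 := by omega
                rw [this]
            omega
          have h0 := hm 0 (by omega) (k - 1) (by omega)
          have hQ : FQ S (a + 1) k (bg (FQ S (a + 1) k) (f 0 (k - 1)).2) ((f 0 (k - 1)).2 + 1) := by
            refine ⟨f, fun x hx j hj => Finset.mem_filter.2 ⟨(hm x hx j hj).1, ?_, ?_⟩, hf2, hf3⟩
            · have h8 := hm x hx j hj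
              exact bg_le_of_st_eq (FQ S (a + 1) k) (h8.2.1.trans h0.2.2.1.symm)
            · have := hle x hx j hj; omega
          have h4 := (st_pos (FQ S (a + 1) k) hQ).1
          rw [← hs] at h4
          omega
      -- star edges
      have hStar : SQ (S.filter (fun e => s e.1 = s e.2 ∧ s (e.2 + 1) ≠ s e.2)) 1 := by
        refine SQ.of_cr (fun _ => 0) (fun _ _ => by norm_num) ?_
        intro e he f hf hcr
        rw [Finset.mem_filter] at he hf
        have e1 := smono hcr.1.le
        have e2 := smono hcr.2.1.le
        have e3 := smono (show e.2 + 1 ≤ f.2 from hcr.2.2)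
        have e4 := (st_step (FQ S (a + 1) k) e.2).1
        rw [← hs] at e4
        omega
      -- near edges
      have hNear : ∀ p, SQ (S.filter (fun e => s e.2 = s e.1 + 1 ∧ s e.1 % 2 = p))
          (k * ((a + 1 + 1) * (5 * (k + 4)))) := by
        intro p
        refine SQ.blocks (fun e => s e.1) ?_ ?_
        · intro e he f hf hne
          rw [Finset.mem_filter] at he hf
          beta_reduce at hne
          constructor
          · intro hcr
            have e1 := smono hcr.1.le
            have e2 := smono hcr.2.1.le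
            omega
          · intro hns
            have e1 := smono hns.1.le
            have e2 := smono hns.2.le
            omega
        · intro i
          have hsub : ((S.filter (fun e => s e.2 = s e.1 + 1 ∧ s e.1 % 2 = p)).filter
              (fun e => s e.1 = i)) ⊆ S := (Finset.filter_subset _ _).trans (Finset.filter_subset _ _)
          refine sep_poly k (a + 1 + 1) k _ ?_ (fun h => h1 (h.mono hsub)) (fun h => h3 (h.mono hsub))
          intro e he f hf
          simp only [Finset.mem_filter] at he hf
          by_contra hcon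
          have := smono (show f.2 ≤ e.1 by omega)
          omega
      -- long edges
      have hLong : SQ (S.filter (fun e => s e.1 + 2 ≤ s e.2)) P := by
        have hsub : S.filter (fun e => s e.1 + 2 ≤ s e.2) ⊆ S := Finset.filter_subset _ _
        obtain ⟨c, hc1, hc2⟩ := hP _ (hWs hsub) (fun h => h1 (long_twist S hS (a + 1) k (by omega) hk h))
        exact SQ.of_cr c hc1 hc2
      refine (SQ.add (SQ.add (SQ.add hIn hStar (U := S.filter (fun e => s e.1 = s e.2)) ?_)
        (SQ.add (hNear 0) (hNear 1) (U := S.filter (fun e => s e.2 = s e.1 + 1)) ?_)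
        (U := S.filter (fun e => s e.2 < s e.1 + 2)) ?_) hLong ?_).mono (Finset.Subset.refl _) ?_
      · intro e he
        simp only [Finset.mem_filter] at he ⊢
        by_cases h : s (e.2 + 1) = s e.2
        · left; exact ⟨he.1, he.2, h⟩
        · right; exact ⟨he.1, he.2, h⟩
      · intro e he
        simp only [Finset.mem_filter] at he ⊢
        rcases Nat.mod_two_eq_zero_or_one (s e.1) with h | h
        · left; exact ⟨he.1, he.2, h⟩
        · right; exact ⟨he.1, he.2, h⟩
      · intro e he
        simp only [Finset.mem_filter] at he ⊢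
        have := smono (hS e he.1).le
        rcases Nat.lt_or_ge (s e.1) (s e.2) with h | h
        · right; exact ⟨he.1, by omega⟩
        · left; exact ⟨he.1, by omega⟩
      · intro e he
        simp only [Finset.mem_filter]
        rcases Nat.lt_or_ge (s e.2) (s e.1 + 2) with h | h
        · left; exact ⟨he, h⟩
        · right; exact ⟨he, h⟩
      · apply le_of_eq
        ring

/-- the polynomial main theorem -/
theorem main_thm (k : ℕ) (hk : 1 ≤ k) (S : Finset Ed) (hS : Wf S)
    (h1 : ¬ Fam Cr Ns S k k) (h2 : ¬ Fam Ns Cr S k k) :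
    SQ S (5 * k ^ 4 + 79 * k ^ 3 + 65 * k ^ 2 + k) := by
  have hP : ∀ S : Finset Ed, Wf S → ¬ Ch Cr S (3 * k) → Cl S (54 * k ^ 2 + 45 * k) := by
    intro S hS h
    have h' : ¬ Ch Cr S (3 * k - 1 + 1) := by rwa [show 3 * k - 1 + 1 = 3 * k by omega]
    refine (circ_poly (3 * k - 1) S hS h').mono (Finset.Subset.refl _) ?_
    obtain ⟨m, rfl⟩ : ∃ m, k = m + 1 := ⟨k - 1, by omega⟩
    have h3 : 3 * (m + 1) - 1 = 3 * m + 2 := by omega
    rw [h3]
    nlinarith
  have h3 := main_ind k _ hk hP (k - 1) S hS (by rwa [Nat.sub_add_cancel hk]) h2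
  refine h3.mono (Finset.Subset.refl _) ?_
  obtain ⟨m, rfl⟩ : ∃ m, k = m + 1 := ⟨k - 1, by omega⟩
  simp only [Nat.add_sub_cancel]
  apply le_of_eq
  ring

end Pool.Agent.KS6_63.MX
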